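import Mathlib

set_option autoImplicit false

/-!
# Dense edge-ordered graphs contain the path `61245783`
-/

namespace Pool.Agent.Lib.MP_79efce_co

open Finset

/-- Cutting a linear order on a finite set into `t` short intervals. -/
theorem exists_intervals {α : Type} [DecidableEq α] (E : Finset α) (M : α → ℕ)
    (hM : Set.InjOn M E) (t : ℕ) (ht : 0 < t) :
    ∃ col : α → ℕ, (∀ e ∈ E, col e < t) ∧
      (∀ i, (E.filter fun e => col e = i).card ≤ E.card / t + 1) ∧
      ∀ e ∈ E, ∀ f ∈ E, col e < col f → M e < M f := by
  classical
  set w := E.card / t + 1 with hw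
  have hwpos : 0 < w := Nat.succ_pos _
  let ρ : α → ℕ := fun e => (E.filter fun f => M f < M e).card
  have hmono : ∀ e ∈ E, ∀ f ∈ E, M e < M f → ρ e < ρ f := by
    intro e he f hf hlt
    apply Finset.card_lt_card
    rw [Finset.ssubset_iff_of_subset]
    · exact ⟨e, by simp [he, hlt], by simp⟩
    · intro g hg
      rw [Finset.mem_filter] at hg ⊢
      exact ⟨hg.1, hg.2.trans hlt⟩
  have hlt : ∀ e ∈ E, ρ e < E.card := by
    intro e he
    apply Finset.card_lt_card
    rw [Finset.ssubset_iff_of_subset (Finset.filter_subset _ _)]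
    exact ⟨e, he, by simp⟩
  have hinj : Set.InjOn ρ E := by
    intro e he f hf h
    rcases lt_trichotomy (M e) (M f) with h1 | h1 | h1
    · exact absurd h (hmono e he f hf h1).ne
    · exact hM he hf h1
    · exact absurd h (hmono f hf e he h1).ne'
  refine ⟨fun e => ρ e / w, ?_, ?_, ?_⟩
  · intro e he
    rw [Nat.div_lt_iff_lt_mul hwpos]
    have h1 := hlt e he
    have h2 : E.card < t * w := by
      rw [hw, mul_add, mul_one]
      have := Nat.div_add_mod E.card t
      have := Nat.mod_lt E.card ht
      omega
    exact h1.trans h2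
  · intro i
    change (E.filter fun e => ρ e / w = i).card ≤ E.card / t + 1
    have h1 : ((E.filter fun e => ρ e / w = i).image ρ) ⊆ Finset.Ico (i * w) (i * w + w) := by
      intro r hr
      rw [Finset.mem_image] at hr
      obtain ⟨e, he, rfl⟩ := hr
      rw [Finset.mem_filter] at he
      rw [Finset.mem_Ico]
      have h2 := he.2
      rw [Nat.div_eq_iff hwpos] at h2
      rw [mul_comm] at h2
      constructor
      · rw [mul_comm]
        omega
      · rw [mul_comm i w]
        omega
    have h2 := Finset.card_le_card h1
    rw [Finset.card_image_of_injOn, Nat.card_Ico] at h2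
    · omega
    · intro e he f hf h
      rw [Finset.mem_coe, Finset.mem_filter] at he hf
      exact hinj he.1 hf.1 h
  · intro e he f hf h
    by_contra hcon
    push Not at hcon
    have h1 : ρ f ≤ ρ e := by
      rcases hcon.lt_or_eq with h2 | h2
      · exact (hmono f hf e he h2).le
      · rw [hM hf he h2]
    have h2 := Nat.div_le_div_right (c := w) h1
    have h3 : ρ e / w < ρ f / w := h
    omega

section Count

variable {n : ℕ} (G : SimpleGraph (Fin n)) [DecidableRel G.Adj] (col : Sym2 (Fin n) → ℕ)

/-- degree in a colour -/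
def cdeg (v : Fin n) (i : ℕ) : ℕ := (univ.filter fun u => G.Adj v u ∧ col s(v, u) = i).card

/-- the colours in which a vertex has large degree -/
noncomputable def heavy (t : ℕ) (δ : ℝ) (v : Fin n) : Finset ℕ :=
  (range t).filter fun i => δ * n ≤ cdeg G col v i

/-- ordered pairs of adjacent vertices -/
def pairs : Finset (Fin n × Fin n) := univ.filter fun p => G.Adj p.1 p.2

theorem pairs_card_le : (pairs G).card ≤ n * n := by
  have := Finset.card_le_univ (pairs G)
  rwa [Fintype.card_prod, Fintype.card_fin] at this

theorem pairs_card : (pairs G).card = 2 * G.edgeFinset.card := by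
  rw [← G.sum_degrees_eq_twice_card_edges]
  unfold pairs
  rw [Finset.card_filter, Fintype.sum_prod_type]
  refine Finset.sum_congr rfl ?_
  intro x _
  rw [← Finset.card_filter, ← SimpleGraph.card_neighborFinset_eq_degree]
  congr 1
  ext y
  simp

theorem pairs_col_card (i : ℕ) :
    ((pairs G).filter fun p => col s(p.1, p.2) = i).card ≤
      2 * (G.edgeFinset.filter fun e => col e = i).card := by
  classical
  have h := Finset.card_le_mul_card_image_of_maps_to
    (s := (pairs G).filter fun p => col s(p.1, p.2) = i)
    (t := G.edgeFinset.filter fun e => col e = i) (f := fun p => s(p.1, p.2))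
    (by
      intro p hp
      simp only [pairs, Finset.mem_filter, Finset.mem_univ, true_and] at hp
      simp only [Finset.mem_filter, SimpleGraph.mem_edgeFinset, SimpleGraph.mem_edgeSet]
      exact hp) 2
    (by
      intro e _
      induction e using Sym2.ind with
      | _ x y =>
        have : (((pairs G).filter fun p => col s(p.1, p.2) = i).filter
            fun p => s(p.1, p.2) = s(x, y)) ⊆ {(x, y), (y, x)} := by
          rintro ⟨a, b⟩ hp
          simp only [Finset.mem_filter, Sym2.eq_iff] at hp
          simp only [Finset.mem_insert, Finset.mem_singleton, Prod.mk.injEq]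
          exact hp.2
        exact (Finset.card_le_card this).trans Finset.card_le_two)
  exact h

/-- The main counting lemma: in a dense graph many vertices are spread. -/
theorem spread_large (s : ℕ) (hs : 0 < s) (hn : s ≤ n)
    (hcol : ∀ e ∈ G.edgeFinset, col e < s * s)
    (hcard : ∀ i, (G.edgeFinset.filter fun e => col e = i).card ≤
      G.edgeFinset.card / (s * s) + 1)
    (δ : ℝ) (hδ : 0 ≤ δ) (Sp : Finset (Fin n))
    (hSp : ∀ v, v ∉ Sp → (heavy G col (s * s) δ v).card ≤ 4) :
    ((pairs G).card : ℝ) ≤ 4 * n * (2 * n / s) + 2 * (Sp.card * n + (s * s) * (δ * n) * n) := by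
  classical
  have hnpos : 0 < n := lt_of_lt_of_le hs hn
  set t := s * s with ht
  let A : Finset (Fin n × Fin n) := (pairs G).filter fun p =>
    p.1 ∈ Sp ∨ col s(p.1, p.2) ∉ heavy G col t δ p.1
  let Gd : Finset (Fin n × Fin n) := (pairs G).filter fun p =>
    (p.1 ∉ Sp ∧ p.2 ∉ Sp) ∧ col s(p.1, p.2) ∈ heavy G col t δ p.1 ∧
      col s(p.1, p.2) ∈ heavy G col t δ p.2
  have hsub : pairs G ⊆ Gd ∪ (A ∪ A.image Prod.swap) := by
    rintro ⟨a, b⟩ hp
    have hadj : G.Adj a b := by simpa [pairs] using hp
    have hp' : (b, a) ∈ pairs G := by simpa [pairs] using hadj.symm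
    simp only [Finset.mem_union, Finset.mem_image, A, Gd, Finset.mem_filter]
    by_cases h1 : (a, b) ∈ A
    · right; left
      simpa [A] using h1
    · by_cases h2 : (b, a) ∈ A
      · right; right
        refine ⟨(b, a), ?_, rfl⟩
        simpa [A] using h2
      · left
        simp only [A, Finset.mem_filter, hp, hp', true_and, not_or, not_not] at h1 h2
        rw [Sym2.eq_swap] at h2
        exact ⟨hp, ⟨h1.1, h2.1⟩, h1.2, h2.2⟩
  have h1 : (pairs G).card ≤ Gd.card + 2 * A.card := by
    have := Finset.card_le_card hsub
    have h2 := Finset.card_union_le Gd (A ∪ A.image Prod.swap)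
    have h3 := Finset.card_union_le A (A.image Prod.swap)
    have h4 : (A.image Prod.swap).card ≤ A.card := Finset.card_image_le
    omega
  -- the bad pairs
  have hA : (A.card : ℝ) ≤ Sp.card * n + t * (δ * n) * n := by
    let A1 : Finset (Fin n × Fin n) := Sp ×ˢ univ
    let A2 : Finset (Fin n × Fin n) := univ.biUnion fun v : Fin n =>
      ((range t).filter fun i => i ∉ heavy G col t δ v).biUnion fun i =>
        (univ.filter fun u => G.Adj v u ∧ col s(v, u) = i).image fun u => (v, u)
    have hA12 : A ⊆ A1 ∪ A2 := by
      rintro ⟨a, b⟩ hp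
      simp only [A, Finset.mem_filter] at hp
      have hadj : G.Adj a b := by simpa [pairs] using hp.1
      rw [Finset.mem_union]
      rcases hp.2 with h | h
      · left
        simp [A1, h]
      · by_cases hSpa : a ∈ Sp
        · left
          simp [A1, hSpa]
        · right
          simp only [A2, Finset.mem_biUnion, Finset.mem_univ, true_and, Finset.mem_filter,
            Finset.mem_image, Prod.mk.injEq, Finset.mem_range]
          refine ⟨a, col s(a, b), ⟨hcol _ ?_, h⟩, b, ⟨hadj, rfl⟩, rfl, rfl⟩
          simpa using hadj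
    have hc1 : A1.card = Sp.card * n := by
      simp [A1, Finset.card_product]
    have hc2 : (A2.card : ℝ) ≤ t * (δ * n) * n := by
      have e1 : (A2.card : ℝ) ≤ ∑ v : Fin n, ((((range t).filter fun i => i ∉ heavy G col t δ v).biUnion fun i =>
        (univ.filter fun u => G.Adj v u ∧ col s(v, u) = i).image fun u => (v, u)).card : ℝ) := by
        exact_mod_cast Finset.card_biUnion_le
      have e2 : ∀ v : Fin n, ((((range t).filter fun i => i ∉ heavy G col t δ v).biUnion fun i =>
        (univ.filter fun u => G.Adj v u ∧ col s(v, u) = i).image fun u => (v, u)).card : ℝ) ≤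
          t * (δ * n) := by
        intro v
        have e3 : ((((range t).filter fun i => i ∉ heavy G col t δ v).biUnion fun i =>
          (univ.filter fun u => G.Adj v u ∧ col s(v, u) = i).image fun u => (v, u)).card : ℝ) ≤
          ∑ i ∈ (range t).filter fun i => i ∉ heavy G col t δ v,
            (((univ.filter fun u => G.Adj v u ∧ col s(v, u) = i).image fun u => (v, u)).card : ℝ) := by
          exact_mod_cast Finset.card_biUnion_le
        have e4 : ∀ i ∈ (range t).filter fun i => i ∉ heavy G col t δ v,
            (((univ.filter fun u => G.Adj v u ∧ col s(v, u) = i).image fun u => (v, u)).card : ℝ) ≤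
              δ * n := by
          intro i hi
          rw [Finset.mem_filter] at hi
          have e5 : ¬ (δ * n ≤ cdeg G col v i) := by
            intro h
            exact hi.2 (by simp only [heavy, Finset.mem_filter]; exact ⟨hi.1, h⟩)
          push Not at e5
          refine le_trans ?_ e5.le
          unfold cdeg
          exact_mod_cast Finset.card_image_le
        refine e3.trans ((Finset.sum_le_card_nsmul _ _ _ e4).trans ?_)
        rw [nsmul_eq_mul]
        have e6 : ((range t).filter fun i => i ∉ heavy G col t δ v).card ≤ t := by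
          refine (Finset.card_filter_le _ _).trans ?_
          simp
        have e7 : (0 : ℝ) ≤ δ * n := by positivity
        exact mul_le_mul_of_nonneg_right (by exact_mod_cast e6) e7
      refine e1.trans ((Finset.sum_le_card_nsmul _ _ _ (fun v _ => e2 v)).trans ?_)
      rw [nsmul_eq_mul, Finset.card_univ, Fintype.card_fin]
      exact le_of_eq (by ring)
    have hc3 : (A.card : ℝ) ≤ A1.card + A2.card := by
      exact_mod_cast (Finset.card_le_card hA12).trans (Finset.card_union_le _ _)
    rw [hc1] at hc3
    push_cast at hc3
    linarith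
  -- the good pairs
  have hGd : (Gd.card : ℝ) ≤ 4 * n * (2 * n / s) := by
    let H : ℕ → Finset (Fin n) := fun i => univ.filter fun v => v ∉ Sp ∧ i ∈ heavy G col t δ v
    have g1 : Gd.card = ∑ i ∈ range t, (Gd.filter fun p => col s(p.1, p.2) = i).card := by
      apply Finset.card_eq_sum_card_fiberwise
      rintro ⟨a, b⟩ hp
      rw [Finset.mem_coe, Finset.mem_filter] at hp
      have hadj : G.Adj a b := by simpa [pairs] using hp.1
      simp only [Finset.coe_range, Set.mem_Iio]
      apply hcol
      simpa using hadj
    have hy : (0 : ℝ) ≤ 2 * n / s := by positivity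
    have g2 : ∀ i ∈ range t, ((Gd.filter fun p => col s(p.1, p.2) = i).card : ℝ) ≤
        (H i).card * (2 * n / s) := by
      intro i _
      have g3 : (Gd.filter fun p => col s(p.1, p.2) = i) ⊆ H i ×ˢ H i := by
        rintro ⟨a, b⟩ hp
        simp only [Gd, Finset.mem_filter] at hp
        obtain ⟨⟨-, ⟨h1, h2⟩, h3, h4⟩, h5⟩ := hp
        rw [h5] at h3 h4
        simp only [H, Finset.mem_product, Finset.mem_filter, Finset.mem_univ, true_and]
        exact ⟨⟨h1, h3⟩, h2, h4⟩
      have g4 : ((Gd.filter fun p => col s(p.1, p.2) = i).card : ℝ) ≤ (H i).card * (H i).card := by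
        have := Finset.card_le_card g3
        rw [Finset.card_product] at this
        exact_mod_cast this
      have g5 : ((Gd.filter fun p => col s(p.1, p.2) = i).card : ℝ) ≤ (2 * n / s) * (2 * n / s) := by
        have g6 : (Gd.filter fun p => col s(p.1, p.2) = i).card ≤
            2 * (G.edgeFinset.card / t + 1) := by
          refine (Finset.card_le_card ?_).trans ((pairs_col_card G col i).trans
            (Nat.mul_le_mul_left _ (hcard i)))
          intro p hp
          simp only [Gd, Finset.mem_filter] at hp ⊢
          exact ⟨hp.1.1, hp.2⟩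
        have g7 : 2 * G.edgeFinset.card ≤ n * n := by
          rw [← pairs_card]
          exact pairs_card_le G
        have g8 : (2 * (G.edgeFinset.card / t + 1) : ℝ) ≤ (2 * n / s) * (2 * n / s) := by
          have hs' : (0 : ℝ) < s := by exact_mod_cast hs
          have g9 : (2 * (G.edgeFinset.card : ℝ)) ≤ n * n := by exact_mod_cast g7
          have g10 : (s : ℝ) ≤ n := by exact_mod_cast hn
          have ht' : (t : ℝ) = s * s := by rw [ht]; push_cast; ring
          rw [ht']
          have : (2 * (n : ℝ) / s) * (2 * n / s) = (4 * (n * n)) / (s * s) := by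
            field_simp
            ring
          rw [this]
          rw [mul_add, ← mul_div_assoc, mul_one, div_add' _ _ _ (by positivity)]
          apply div_le_div_of_nonneg_right _ (by positivity)
          nlinarith
        have g11 : ((G.edgeFinset.card / t : ℕ) : ℝ) ≤ (G.edgeFinset.card : ℝ) / t :=
          Nat.cast_div_le
        have g12 : ((Gd.filter fun p => col s(p.1, p.2) = i).card : ℝ) ≤
            2 * (((G.edgeFinset.card / t : ℕ) : ℝ) + 1) := by exact_mod_cast g6
        linarith
      by_cases hcase : ((H i).card : ℝ) ≤ 2 * n / s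
      · refine g4.trans ?_
        exact mul_le_mul_of_nonneg_left hcase (by positivity)
      · push Not at hcase
        refine g5.trans ?_
        exact mul_le_mul_of_nonneg_right hcase.le hy
    have g13 : ∑ i ∈ range t, (H i).card ≤ 4 * n := by
      have g14 : ∑ i ∈ range t, (H i).card =
          ∑ v : Fin n, (if v ∈ Sp then 0 else (heavy G col t δ v).card) := by
        have : ∀ i, (H i).card = ∑ v : Fin n, if v ∉ Sp ∧ i ∈ heavy G col t δ v then 1 else 0 := by
          intro i
          simp only [H]
          rw [Finset.card_filter]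
        simp_rw [this]
        rw [Finset.sum_comm]
        refine Finset.sum_congr rfl ?_
        intro v _
        by_cases hv : v ∈ Sp
        · simp [hv]
        · simp only [hv, not_false_eq_true, true_and, if_false]
          rw [← Finset.card_filter]
          congr 1
          ext i
          simp only [Finset.mem_filter, heavy, Finset.mem_range]
          tauto
      rw [g14]
      refine (Finset.sum_le_card_nsmul _ _ 4 ?_).trans ?_
      · intro v _
        by_cases hv : v ∈ Sp
        · simp [hv]
        · simp only [hv, if_false]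
          exact hSp v hv
      · simp [mul_comm]
    calc (Gd.card : ℝ) = ∑ i ∈ range t, ((Gd.filter fun p => col s(p.1, p.2) = i).card : ℝ) := by
          exact_mod_cast g1
      _ ≤ ∑ i ∈ range t, ((H i).card : ℝ) * (2 * n / s) := Finset.sum_le_sum g2
      _ = (∑ i ∈ range t, ((H i).card : ℝ)) * (2 * n / s) := by rw [Finset.sum_mul]
      _ ≤ 4 * n * (2 * n / s) := by
          apply mul_le_mul_of_nonneg_right _ hy
          exact_mod_cast g13
  have h2 : ((pairs G).card : ℝ) ≤ Gd.card + 2 * A.card := by exact_mod_cast h1
  have ht' : (t : ℝ) = s * s := by rw [ht]; push_cast; ring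
  rw [ht'] at hA
  linarith

/-- One averaging step. -/
theorem pick_row (i : ℕ) (δ : ℝ) (B : Finset (Fin n)) (hn : 0 < n)
    (hB : ∀ v ∈ B, δ * n ≤ cdeg G col v i) :
    ∃ a : Fin n, δ * B.card ≤ ((B.filter fun v => G.Adj v a ∧ col s(v, a) = i).card : ℝ) := by
  classical
  have hne : (univ : Finset (Fin n)).Nonempty := ⟨⟨0, hn⟩, Finset.mem_univ _⟩
  have h1 : ∑ a : Fin n, ((B.filter fun v => G.Adj v a ∧ col s(v, a) = i).card : ℝ) =
      ∑ v ∈ B, (cdeg G col v i : ℝ) := by
    have h2 : ∀ a : Fin n, ((B.filter fun v => G.Adj v a ∧ col s(v, a) = i).card : ℝ) =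
        ∑ v ∈ B, if G.Adj v a ∧ col s(v, a) = i then (1 : ℝ) else 0 := by
      intro a
      rw [Finset.card_filter]
      push_cast
      rfl
    simp_rw [h2]
    rw [Finset.sum_comm]
    refine Finset.sum_congr rfl ?_
    intro v _
    unfold cdeg
    rw [Finset.card_filter]
    push_cast
    rfl
  have h3 : ∑ _a : Fin n, δ * (B.card : ℝ) ≤
      ∑ a : Fin n, ((B.filter fun v => G.Adj v a ∧ col s(v, a) = i).card : ℝ) := by
    rw [h1, Finset.sum_const, Finset.card_univ, Fintype.card_fin, nsmul_eq_mul]
    have h4 := Finset.card_nsmul_le_sum B (fun v => (cdeg G col v i : ℝ)) (δ * n) hB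
    rw [nsmul_eq_mul] at h4
    refine le_trans (le_of_eq ?_) h4
    ring
  obtain ⟨a, -, ha⟩ := Finset.exists_le_of_sum_le hne h3
  exact ⟨a, ha⟩

/-- Rows found for any finite list of colours. -/
theorem pick_rows (δ : ℝ) (hδ : 0 ≤ δ) (hn : 0 < n) (l : List ℕ) (B : Finset (Fin n))
    (hB : ∀ v ∈ B, ∀ i ∈ l, δ * n ≤ cdeg G col v i) :
    ∃ (a : ℕ → Fin n) (C : Finset (Fin n)), C ⊆ B ∧ δ ^ l.length * B.card ≤ C.card ∧
      ∀ v ∈ C, ∀ i ∈ l, G.Adj v (a i) ∧ col s(v, a i) = i := by
  classical
  induction l with
  | nil => exact ⟨fun _ => ⟨0, hn⟩, B, subset_rfl, by simp, by simp⟩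
  | cons i l ih =>
    obtain ⟨a, C, hCB, hcard, hC⟩ := ih (fun v hv j hj => hB v hv j (List.mem_cons_of_mem _ hj))
    obtain ⟨x, hx⟩ := pick_row G col i δ C hn
      (fun v hv => hB v (hCB hv) i List.mem_cons_self)
    refine ⟨Function.update a i x, C.filter fun v => G.Adj v x ∧ col s(v, x) = i,
      (Finset.filter_subset _ _).trans hCB, ?_, ?_⟩
    · rw [List.length_cons, pow_succ]
      calc δ ^ l.length * δ * B.card = δ * (δ ^ l.length * B.card) := by ring
        _ ≤ δ * C.card := mul_le_mul_of_nonneg_left hcard hδ
        _ ≤ _ := hx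
    · intro v hv j hj
      rw [Finset.mem_filter] at hv
      by_cases hji : j = i
      · subst hji
        rw [Function.update_self]
        exact hv.2
      · rw [Function.update_of_ne hji]
        rcases List.mem_cons.1 hj with h | h
        · exact absurd h hji
        · exact hC v hv.1 j h

end Count

end Pool.Agent.Lib.MP_79efce_co
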