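import Mathlib

set_option autoImplicit false

/-!
# Hosts of superpolylogarithmic density avoiding an edge-ordered path with 8 edges

The path is `v0 v1 ... v8`, with edge ranks `6,1,2,4,5,7,8,3`.
-/

namespace Pool.Agent.Lib.MP_79efce_co

open Finset

/-- A (not necessarily injective) copy of the edge-ordered path `61245783`. -/
def HasCopy {V : Type} (G : SimpleGraph V) (M : V → V → ℕ) : Prop :=
  ∃ v : Fin 9 → V,
    (G.Adj (v 0) (v 1) ∧ G.Adj (v 1) (v 2) ∧ G.Adj (v 2) (v 3) ∧ G.Adj (v 3) (v 4) ∧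
      G.Adj (v 4) (v 5) ∧ G.Adj (v 5) (v 6) ∧ G.Adj (v 6) (v 7) ∧ G.Adj (v 7) (v 8)) ∧
    (v 1 ≠ v 3 ∧ v 1 ≠ v 4 ∧ v 5 ≠ v 7) ∧
    (M (v 1) (v 2) < M (v 2) (v 3) ∧ M (v 2) (v 3) < M (v 7) (v 8) ∧
      M (v 7) (v 8) < M (v 3) (v 4) ∧ M (v 3) (v 4) < M (v 4) (v 5) ∧
      M (v 4) (v 5) < M (v 0) (v 1) ∧ M (v 0) (v 1) < M (v 5) (v 6) ∧
      M (v 5) (v 6) < M (v 6) (v 7))

/-- Greedy colouring. -/
theorem exists_coloring {V : Type} [Fintype V] (R : V → V → Prop) (hs : ∀ x y, R x y → R y x)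
    (hirr : ∀ x, ¬ R x x) (q : ℕ) [NeZero q] (hq : ∀ x, {y | R x y}.ncard < q) :
    ∃ χ : V → ZMod q, ∀ x y, R x y → χ x ≠ χ y := by
  classical
  have key : ∀ s : Finset V, ∃ χ : V → ZMod q, ∀ x ∈ s, ∀ y ∈ s, R x y → χ x ≠ χ y := by
    intro s
    induction s using Finset.induction_on with
    | empty => exact ⟨fun _ => 0, by simp⟩
    | insert a s ha ih =>
      obtain ⟨χ, hχ⟩ := ih
      have h1 : (χ '' {y | R a y}).ncard < q :=
        lt_of_le_of_lt (Set.ncard_image_le (Set.toFinite _)) (hq a)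
      have h2 : ∃ c : ZMod q, c ∉ χ '' {y | R a y} := by
        by_contra hcon
        push Not at hcon
        have : χ '' {y | R a y} = Set.univ := Set.eq_univ_of_forall hcon
        rw [this, Set.ncard_univ, Nat.card_eq_fintype_card, ZMod.card] at h1
        exact lt_irrefl _ h1
      obtain ⟨c, hc⟩ := h2
      refine ⟨Function.update χ a c, ?_⟩
      intro x hx y hy hxy
      rw [Finset.mem_insert] at hx hy
      by_cases hxa : x = a
      · subst hxa
        have hyx : y ≠ x := by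
          rintro rfl
          exact hirr _ hxy
        rw [Function.update_self, Function.update_of_ne hyx]
        intro h
        exact hc ⟨y, hxy, h.symm⟩
      · have hxs : x ∈ s := by tauto
        by_cases hya : y = a
        · subst hya
          rw [Function.update_self, Function.update_of_ne hxa]
          intro h
          exact hc ⟨x, hs _ _ hxy, h⟩
        · have hys : y ∈ s := by tauto
          rw [Function.update_of_ne hxa, Function.update_of_ne hya]
          exact hχ x hxs y hys hxy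
  obtain ⟨χ, hχ⟩ := key Finset.univ
  exact ⟨χ, fun x y h => hχ x (Finset.mem_univ _) y (Finset.mem_univ _) h⟩

/-- Two vertices joined by a walk of length one, two or three. -/
def Near {V : Type} (G : SimpleGraph V) (x y : V) : Prop :=
  x ≠ y ∧ (G.Adj x y ∨ (∃ z, G.Adj x z ∧ G.Adj z y) ∨ ∃ z w, G.Adj x z ∧ G.Adj z w ∧ G.Adj w y)

theorem near_symm {V : Type} (G : SimpleGraph V) (x y : V) (h : Near G x y) : Near G y x := by
  obtain ⟨hne, h | ⟨z, h1, h2⟩ | ⟨z, w, h1, h2, h3⟩⟩ := h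
  · exact ⟨hne.symm, Or.inl h.symm⟩
  · exact ⟨hne.symm, Or.inr (Or.inl ⟨z, h2.symm, h1.symm⟩)⟩
  · exact ⟨hne.symm, Or.inr (Or.inr ⟨w, z, h3.symm, h2.symm, h1.symm⟩)⟩

theorem ncard_biUnion_nbr {V : Type} [Fintype V] (G : SimpleGraph V) (d : ℕ)
    (hd : ∀ x, (G.neighborSet x).ncard = d) (s : Set V) :
    {y | ∃ z ∈ s, G.Adj z y}.ncard ≤ s.ncard * d := by
  classical
  have h1 : {y | ∃ z ∈ s, G.Adj z y} =
      ((s.toFinset.biUnion fun z => (G.neighborSet z).toFinset : Finset V) : Set V) := by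
    ext y
    simp
  rw [h1, Set.ncard_coe_finset]
  have h2 := Finset.card_biUnion_le_card_mul s.toFinset (fun z => (G.neighborSet z).toFinset) d
    (by
      intro z _
      rw [← hd z, Set.ncard_eq_toFinset_card'])
  rw [Set.ncard_eq_toFinset_card' s]
  exact h2

theorem near_ncard {V : Type} [Fintype V] (G : SimpleGraph V) (k : ℕ)
    (hd : ∀ x, (G.neighborSet x).ncard = 2 ^ k) (x : V) :
    {y | Near G x y}.ncard < 4 * 8 ^ k := by
  have hsub : {y | Near G x y} ⊆ G.neighborSet x ∪ ({y | ∃ z ∈ G.neighborSet x, G.Adj z y} ∪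
      {y | ∃ z ∈ {y | ∃ z ∈ G.neighborSet x, G.Adj z y}, G.Adj z y}) := by
    rintro y ⟨-, h | ⟨z, h1, h2⟩ | ⟨z, w, h1, h2, h3⟩⟩
    · exact Or.inl h
    · exact Or.inr (Or.inl ⟨z, h1, h2⟩)
    · exact Or.inr (Or.inr ⟨w, ⟨z, h1, h2⟩, h3⟩)
  have h1 := ncard_biUnion_nbr G (2 ^ k) hd (G.neighborSet x)
  have h2 := ncard_biUnion_nbr G (2 ^ k) hd {y | ∃ z ∈ G.neighborSet x, G.Adj z y}
  have h3 := Set.ncard_le_ncard hsub (Set.toFinite _)
  have h4 := Set.ncard_union_le (G.neighborSet x) ({y | ∃ z ∈ G.neighborSet x, G.Adj z y} ∪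
      {y | ∃ z ∈ {y | ∃ z ∈ G.neighborSet x, G.Adj z y}, G.Adj z y})
  have h5 := Set.ncard_union_le {y | ∃ z ∈ G.neighborSet x, G.Adj z y}
      {y | ∃ z ∈ {y | ∃ z ∈ G.neighborSet x, G.Adj z y}, G.Adj z y}
  rw [hd x] at h1 h4
  have h6 : {y | ∃ z ∈ {y | ∃ z ∈ G.neighborSet x, G.Adj z y}, G.Adj z y}.ncard ≤
      2 ^ k * 2 ^ k * 2 ^ k := le_trans h2 (Nat.mul_le_mul_right _ h1)
  have h7 : (8 : ℕ) ^ k = 2 ^ k * 2 ^ k * 2 ^ k := by
    rw [← mul_pow, ← mul_pow]
    norm_num
  have h8 : 1 ≤ 2 ^ k := Nat.one_le_two_pow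
  have h9 : 2 ^ k ≤ 2 ^ k * 2 ^ k := Nat.le_mul_of_pos_left _ h8
  have h10 : 2 ^ k * 2 ^ k ≤ 2 ^ k * 2 ^ k * 2 ^ k := Nat.le_mul_of_pos_right _ h8
  rw [h7]
  omega

/-- What we need of a host. -/
structure Host (k : ℕ) (V : Type) (G : SimpleGraph V) (M : V → V → ℕ) : Prop where
  symm : ∀ x y, M x y = M y x
  inj : ∀ x y z w, G.Adj x y → G.Adj z w → M x y = M z w → (x = z ∧ y = w) ∨ (x = w ∧ y = z)
  free : ¬ HasCopy G M
  deg : ∀ x, (G.neighborSet x).ncard = 2 ^ k

/-- The recursive construction of the host graph. -/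
def stepG {V : Type} (G : SimpleGraph V) (q : ℕ) (χ : V → ZMod q) : SimpleGraph (V × ZMod q) where
  Adj a b := G.Adj a.1 b.1 ∧ (a.2 = b.2 ∨ a.2 + χ a.1 = b.2 + χ b.1)
  symm := ⟨by
    rintro a b ⟨h1, h2 | h2⟩
    · exact ⟨h1.symm, Or.inl h2.symm⟩
    · exact ⟨h1.symm, Or.inr h2.symm⟩⟩
  loopless := ⟨by
    rintro a ⟨h1, -⟩
    exact G.loopless.irrefl _ h1⟩

/-- The block index of an edge. -/
def blk {V : Type} (q : ℕ) (χ : V → ZMod q) (a b : V × ZMod q) : ℕ :=
  if a.2 = b.2 then a.2.val else if a.2 + χ a.1 = b.2 + χ b.1 then q + (a.2 + χ a.1).val else 0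

/-- The label of an edge. -/
def stepM {V : Type} (q : ℕ) (χ : V → ZMod q) (M : V → V → ℕ) (B : ℕ) (a b : V × ZMod q) : ℕ :=
  blk q χ a b * B + M a.1 b.1

theorem blk_symm {V : Type} (q : ℕ) (χ : V → ZMod q) (a b : V × ZMod q) :
    blk q χ a b = blk q χ b a := by
  unfold blk
  by_cases h : a.2 = b.2
  · rw [if_pos h, if_pos h.symm, h]
  · rw [if_neg h, if_neg (Ne.symm h)]
    by_cases h' : a.2 + χ a.1 = b.2 + χ b.1
    · rw [if_pos h', if_pos h'.symm, h']
    · rw [if_neg h', if_neg (Ne.symm h')]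

theorem lt_imp {B p q m n : ℕ} (hn : n < B) (h : p * B + m < q * B + n) : p ≤ q := by
  by_contra hc
  push Not at hc
  have : (q + 1) * B ≤ p * B := Nat.mul_le_mul_right _ hc
  rw [add_mul] at this
  omega

theorem eq_imp {B p q m n : ℕ} (hm : m < B) (hn : n < B) (h : p * B + m = q * B + n) :
    p = q ∧ m = n := by
  have h1 : p ≤ q := by
    by_contra hc
    push Not at hc
    have : (q + 1) * B ≤ p * B := Nat.mul_le_mul_right _ hc
    rw [add_mul] at this
    omega
  have h2 : q ≤ p := by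
    by_contra hc
    push Not at hc
    have : (p + 1) * B ≤ q * B := Nat.mul_le_mul_right _ hc
    rw [add_mul] at this
    omega
  have h3 := le_antisymm h1 h2
  subst h3
  exact ⟨rfl, by omega⟩

/-- The two kinds of edges. -/
theorem blk_cases {V : Type} {G : SimpleGraph V} {q : ℕ} [NeZero q] {χ : V → ZMod q}
    {a b : V × ZMod q} (h : (stepG G q χ).Adj a b) :
    (a.2 = b.2 ∧ blk q χ a b = a.2.val ∧ blk q χ a b < q) ∨
    (a.2 ≠ b.2 ∧ a.2 + χ a.1 = b.2 + χ b.1 ∧ blk q χ a b = q + (a.2 + χ a.1).val) := by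
  by_cases h2 : a.2 = b.2
  · left
    have h1 : blk q χ a b = a.2.val := by
      unfold blk
      rw [if_pos h2]
    refine ⟨h2, h1, ?_⟩
    rw [h1]
    exact ZMod.val_lt _
  · right
    have h3 : a.2 + χ a.1 = b.2 + χ b.1 := by
      rcases h.2 with h3 | h3
      · exact absurd h3 h2
      · exact h3
    refine ⟨h2, h3, ?_⟩
    unfold blk
    rw [if_neg h2, if_pos h3]

theorem step_free {V : Type} (G : SimpleGraph V) (M : V → V → ℕ) (q : ℕ) [NeZero q]
    (χ : V → ZMod q) (B : ℕ) (hB : ∀ x y, M x y < B)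
    (hχ : ∀ x y, Near G x y → χ x ≠ χ y) (hfree : ¬ HasCopy G M) :
    ¬ HasCopy (stepG G q χ) (stepM q χ M B) := by
  rintro ⟨v, ⟨e0, e1, e2, e3, e4, e5, e6, e7⟩, ⟨n13, n14, n57⟩, c1, c2, c3, c4, c5, c6, c7⟩
  have valinj : ∀ a b : ZMod q, a.val = b.val → a = b := fun a b h => ZMod.val_injective q h
  have b1 := lt_imp (hB _ _) c1
  have b2 := lt_imp (hB _ _) c2
  have b3 := lt_imp (hB _ _) c3
  have b4 := lt_imp (hB _ _) c4
  have b5 := lt_imp (hB _ _) c5
  have b6 := lt_imp (hB _ _) c6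
  have b7 := lt_imp (hB _ _) c7
  have k0 := blk_cases e0
  have k1 := blk_cases e1
  have k2 := blk_cases e2
  have k3 := blk_cases e3
  have k4 := blk_cases e4
  have k5 := blk_cases e5
  have k6 := blk_cases e6
  have k7 := blk_cases e7
  simp only [stepM] at c1 c2 c3 c4 c5 c6 c7
  rcases k1 with ⟨k1, k1', k1''⟩ | ⟨k1, k1', k1''⟩
  · rcases k2 with ⟨k2, k2', k2''⟩ | ⟨k2, k2', k2''⟩
    · rcases k3 with ⟨k3, k3', k3''⟩ | ⟨k3, k3', k3''⟩
      · rcases k4 with ⟨k4, k4', k4''⟩ | ⟨k4, k4', k4''⟩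
        · -- edges 1,2,3,4 left, hence 7 left
          have k7l : (v 7).2 = (v 8).2 ∧ blk q χ (v 7) (v 8) = (v 7).2.val := by
            rcases k7 with ⟨k7, k7', -⟩ | ⟨-, -, k7''⟩
            · exact ⟨k7, k7'⟩
            · omega
          obtain ⟨k7, k7'⟩ := k7l
          have h27 : (v 7).2 = (v 2).2 := by
            apply valinj
            rw [← k3] at k4'
            rw [← k2] at k3'
            rw [← k7', ← k2']
            omega
          rcases k5 with ⟨k5, k5', k5''⟩ | ⟨k5, k5', k5''⟩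
          · rcases k6 with ⟨k6, k6', k6''⟩ | ⟨k6, k6', k6''⟩
            · -- everything left
              have k0l : (v 0).2 = (v 1).2 ∧ blk q χ (v 0) (v 1) = (v 0).2.val := by
                rcases k0 with ⟨k0, k0', -⟩ | ⟨-, -, k0''⟩
                · exact ⟨k0, k0'⟩
                · omega
              obtain ⟨k0, k0'⟩ := k0l
              apply hfree
              refine ⟨fun i => (v i).1, ⟨e0.1, e1.1, e2.1, e3.1, e4.1, e5.1, e6.1, e7.1⟩,
                ⟨?_, ?_, ?_⟩, ?_⟩
              · intro h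
                exact n13 (Prod.ext h (k1.trans k2))
              · intro h
                exact n14 (Prod.ext h (k1.trans (k2.trans k3)))
              · intro h
                exact n57 (Prod.ext h (k5.trans k6))
              · have q1 : blk q χ (v 1) (v 2) = (v 2).2.val := by rw [k1', k1]
                have q3 : blk q χ (v 3) (v 4) = (v 2).2.val := by rw [k3', k2]
                have q4 : blk q χ (v 4) (v 5) = (v 2).2.val := by rw [k4', ← k3, k2]
                have q0 : blk q χ (v 0) (v 1) = (v 2).2.val := by rw [k0', k0, k1]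
                have q5 : blk q χ (v 5) (v 6) = (v 2).2.val := by rw [k5', ← k4, ← k3, k2]
                have q6 : blk q χ (v 6) (v 7) = (v 2).2.val := by rw [k6', ← k5, ← k4, ← k3, k2]
                have q7 : blk q χ (v 7) (v 8) = (v 2).2.val := by rw [k7', h27]
                rw [q1, k2'] at c1
                rw [k2', q7] at c2
                rw [q7, q3] at c3
                rw [q3, q4] at c4
                rw [q4, q0] at c5
                rw [q0, q5] at c6
                rw [q5, q6] at c7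
                exact ⟨Nat.lt_of_add_lt_add_left c1, Nat.lt_of_add_lt_add_left c2,
                  Nat.lt_of_add_lt_add_left c3, Nat.lt_of_add_lt_add_left c4,
                  Nat.lt_of_add_lt_add_left c5, Nat.lt_of_add_lt_add_left c6,
                  Nat.lt_of_add_lt_add_left c7⟩
            · -- edge 6 right, edge 5 left
              apply k6
              rw [h27, k2, k3, k4, k5]
          · -- edges 5 and 6 right
            have k6r : (v 6).2 + χ (v 6).1 = (v 7).2 + χ (v 7).1 := by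
              rcases k6 with ⟨-, -, k6''⟩ | ⟨-, k6', -⟩
              · omega
              · exact k6'
            have h57 : (v 5).2 = (v 7).2 := by rw [h27, k2, k3, k4]
            have hc : χ (v 5).1 = χ (v 7).1 := by
              have := k5'.trans k6r
              rw [h57] at this
              exact add_left_cancel this
            refine hχ _ _ ⟨?_, Or.inr (Or.inl ⟨_, e5.1, e6.1⟩)⟩ hc
            intro h
            exact n57 (Prod.ext h h57)
        · -- edges 1,2,3 left, 4,5,0 right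
          have k5r : (v 5).2 + χ (v 5).1 = (v 6).2 + χ (v 6).1 ∧
              blk q χ (v 5) (v 6) = q + ((v 5).2 + χ (v 5).1).val := by
            rcases k5 with ⟨-, -, k5''⟩ | ⟨-, k5', k5''⟩
            · omega
            · exact ⟨k5', k5''⟩
          have k0r : (v 0).2 + χ (v 0).1 = (v 1).2 + χ (v 1).1 ∧
              blk q χ (v 0) (v 1) = q + ((v 0).2 + χ (v 0).1).val := by
            rcases k0 with ⟨-, -, k0''⟩ | ⟨-, k0', k0''⟩
            · omega
            · exact ⟨k0', k0''⟩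
          obtain ⟨k5a, k5b⟩ := k5r
          obtain ⟨k0a, k0b⟩ := k0r
          rw [← k4'] at k5b
          rw [k0a] at k0b
          have heq : (v 4).2 + χ (v 4).1 = (v 1).2 + χ (v 1).1 := by
            apply valinj
            omega
          have h14 : (v 1).2 = (v 4).2 := k1.trans (k2.trans k3)
          rw [h14] at heq
          refine hχ _ _ ⟨?_, Or.inr (Or.inr ⟨_, _, e1.1, e2.1, e3.1⟩)⟩ (add_left_cancel heq).symm
          intro h
          exact n14 (Prod.ext h h14)
      · -- edges 1,2 left, 3,4,5,0 right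
        have k4r : (v 4).2 + χ (v 4).1 = (v 5).2 + χ (v 5).1 ∧
            blk q χ (v 4) (v 5) = q + ((v 4).2 + χ (v 4).1).val := by
          rcases k4 with ⟨-, -, k4''⟩ | ⟨-, k4', k4''⟩
          · omega
          · exact ⟨k4', k4''⟩
        have k5r : (v 5).2 + χ (v 5).1 = (v 6).2 + χ (v 6).1 ∧
            blk q χ (v 5) (v 6) = q + ((v 5).2 + χ (v 5).1).val := by
          rcases k5 with ⟨-, -, k5''⟩ | ⟨-, k5', k5''⟩
          · omega
          · exact ⟨k5', k5''⟩
        have k0r : (v 0).2 + χ (v 0).1 = (v 1).2 + χ (v 1).1 ∧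
            blk q χ (v 0) (v 1) = q + ((v 0).2 + χ (v 0).1).val := by
          rcases k0 with ⟨-, -, k0''⟩ | ⟨-, k0', k0''⟩
          · omega
          · exact ⟨k0', k0''⟩
        obtain ⟨k4a, k4b⟩ := k4r
        obtain ⟨k5a, k5b⟩ := k5r
        obtain ⟨k0a, k0b⟩ := k0r
        rw [← k4a, ← k3'] at k5b
        rw [← k3'] at k4b
        rw [k0a] at k0b
        have heq : (v 3).2 + χ (v 3).1 = (v 1).2 + χ (v 1).1 := by
          apply valinj
          omega
        have h13 : (v 1).2 = (v 3).2 := k1.trans k2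
        rw [h13] at heq
        refine hχ _ _ ⟨?_, Or.inr (Or.inl ⟨_, e1.1, e2.1⟩)⟩ (add_left_cancel heq).symm
        intro h
        exact n13 (Prod.ext h h13)
    · -- edge 1 left, all others right
      have k3r : (v 3).2 + χ (v 3).1 = (v 4).2 + χ (v 4).1 := by
        rcases k3 with ⟨-, -, k3''⟩ | ⟨-, k3', k3''⟩
        · omega
        · exact k3'
      have k4r : (v 4).2 + χ (v 4).1 = (v 5).2 + χ (v 5).1 := by
        rcases k4 with ⟨-, -, k4''⟩ | ⟨-, k4', k4''⟩
        · omega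
        · exact k4'
      have k5r : (v 5).2 + χ (v 5).1 = (v 6).2 + χ (v 6).1 ∧
          blk q χ (v 5) (v 6) = q + ((v 5).2 + χ (v 5).1).val := by
        rcases k5 with ⟨-, -, k5''⟩ | ⟨-, k5', k5''⟩
        · omega
        · exact ⟨k5', k5''⟩
      have k0r : (v 0).2 + χ (v 0).1 = (v 1).2 + χ (v 1).1 ∧
          blk q χ (v 0) (v 1) = q + ((v 0).2 + χ (v 0).1).val := by
        rcases k0 with ⟨-, -, k0''⟩ | ⟨-, k0', k0''⟩
        · omega
        · exact ⟨k0', k0''⟩
      obtain ⟨k5a, k5b⟩ := k5r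
      obtain ⟨k0a, k0b⟩ := k0r
      rw [← k4r, ← k3r, ← k2'] at k5b
      rw [k0a] at k0b
      have heq : (v 2).2 + χ (v 2).1 = (v 1).2 + χ (v 1).1 := by
        apply valinj
        omega
      rw [k1] at heq
      exact hχ _ _ ⟨e1.1.ne, Or.inl e1.1⟩ (add_left_cancel heq).symm
  · -- everything right
    have r0 : (v 0).2 + χ (v 0).1 = (v 1).2 + χ (v 1).1 ∧
        blk q χ (v 0) (v 1) = q + ((v 0).2 + χ (v 0).1).val := by
      rcases k0 with ⟨-, -, h⟩ | ⟨-, h, h'⟩
      · omega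
      · exact ⟨h, h'⟩
    have r2 : (v 2).2 + χ (v 2).1 = (v 3).2 + χ (v 3).1 ∧
        blk q χ (v 2) (v 3) = q + ((v 2).2 + χ (v 2).1).val := by
      rcases k2 with ⟨-, -, h⟩ | ⟨-, h, h'⟩
      · omega
      · exact ⟨h, h'⟩
    have r3 : (v 3).2 + χ (v 3).1 = (v 4).2 + χ (v 4).1 ∧
        blk q χ (v 3) (v 4) = q + ((v 3).2 + χ (v 3).1).val := by
      rcases k3 with ⟨-, -, h⟩ | ⟨-, h, h'⟩
      · omega
      · exact ⟨h, h'⟩
    have r4 : (v 4).2 + χ (v 4).1 = (v 5).2 + χ (v 5).1 ∧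
        blk q χ (v 4) (v 5) = q + ((v 4).2 + χ (v 4).1).val := by
      rcases k4 with ⟨-, -, h⟩ | ⟨-, h, h'⟩
      · omega
      · exact ⟨h, h'⟩
    have r5 : (v 5).2 + χ (v 5).1 = (v 6).2 + χ (v 6).1 ∧
        blk q χ (v 5) (v 6) = q + ((v 5).2 + χ (v 5).1).val := by
      rcases k5 with ⟨-, -, h⟩ | ⟨-, h, h'⟩
      · omega
      · exact ⟨h, h'⟩
    have r6 : (v 6).2 + χ (v 6).1 = (v 7).2 + χ (v 7).1 ∧
        blk q χ (v 6) (v 7) = q + ((v 6).2 + χ (v 6).1).val := by
      rcases k6 with ⟨-, -, h⟩ | ⟨-, h, h'⟩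
      · omega
      · exact ⟨h, h'⟩
    have r7 : (v 7).2 + χ (v 7).1 = (v 8).2 + χ (v 8).1 ∧
        blk q χ (v 7) (v 8) = q + ((v 7).2 + χ (v 7).1).val := by
      rcases k7 with ⟨-, -, h⟩ | ⟨-, h, h'⟩
      · omega
      · exact ⟨h, h'⟩
    have s0 := r0.1
    have s1 := k1'
    have s2 := r2.1
    have s3 := r3.1
    have s4 := r4.1
    have s5 := r5.1
    have s6 := r6.1
    have t2 : (v 2).2 + χ (v 2).1 = (v 0).2 + χ (v 0).1 := by rw [s0, s1]
    have t3 : (v 3).2 + χ (v 3).1 = (v 0).2 + χ (v 0).1 := by rw [← s2, t2]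
    have t4 : (v 4).2 + χ (v 4).1 = (v 0).2 + χ (v 0).1 := by rw [← s3, t3]
    have t5 : (v 5).2 + χ (v 5).1 = (v 0).2 + χ (v 0).1 := by rw [← s4, t4]
    have t6 : (v 6).2 + χ (v 6).1 = (v 0).2 + χ (v 0).1 := by rw [← s5, t5]
    have t7 : (v 7).2 + χ (v 7).1 = (v 0).2 + χ (v 0).1 := by rw [← s6, t6]
    have p0 := r0.2
    have p2 := r2.2
    have p3 := r3.2
    have p4 := r4.2
    have p5 := r5.2
    have p6 := r6.2
    have p7 := r7.2
    rw [← s0] at k1''
    rw [t2] at p2
    rw [t3] at p3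
    rw [t4] at p4
    rw [t5] at p5
    rw [t6] at p6
    rw [t7] at p7
    rw [k1'', p2] at c1
    rw [p2, p7] at c2
    rw [p7, p3] at c3
    rw [p3, p4] at c4
    rw [p4, p0] at c5
    rw [p0, p5] at c6
    rw [p5, p6] at c7
    apply hfree
    refine ⟨fun i => (v i).1, ⟨e0.1, e1.1, e2.1, e3.1, e4.1, e5.1, e6.1, e7.1⟩,
      ⟨?_, ?_, ?_⟩, Nat.lt_of_add_lt_add_left c1, Nat.lt_of_add_lt_add_left c2,
      Nat.lt_of_add_lt_add_left c3, Nat.lt_of_add_lt_add_left c4,
      Nat.lt_of_add_lt_add_left c5, Nat.lt_of_add_lt_add_left c6,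
      Nat.lt_of_add_lt_add_left c7⟩
    · intro h
      apply n13
      refine Prod.ext h ?_
      have h' : (v 1).1 = (v 3).1 := h
      have := t3.trans s0
      rw [h'] at this
      exact (add_right_cancel this).symm
    · intro h
      apply n14
      refine Prod.ext h ?_
      have h' : (v 1).1 = (v 4).1 := h
      have := t4.trans s0
      rw [h'] at this
      exact (add_right_cancel this).symm
    · intro h
      apply n57
      refine Prod.ext h ?_
      have h' : (v 5).1 = (v 7).1 := h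
      have := t5.trans t7.symm
      rw [h'] at this
      exact add_right_cancel this

theorem step_host {k : ℕ} {V : Type} [Fintype V] {G : SimpleGraph V} {M : V → V → ℕ}
    (h : Host k V G M) :
    ∃ (χ : V → ZMod (4 * 8 ^ k)) (B : ℕ),
      Host (k + 1) (V × ZMod (4 * 8 ^ k)) (stepG G (4 * 8 ^ k) χ) (stepM (4 * 8 ^ k) χ M B) := by
  classical
  have hne : NeZero (4 * 8 ^ k) := ⟨by positivity⟩
  obtain ⟨χ, hχ⟩ := exists_coloring (Near G) (near_symm G) (fun x hx => hx.1 rfl) (4 * 8 ^ k)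
    (near_ncard G k h.deg)
  obtain ⟨B, hB⟩ : ∃ B, ∀ x y, M x y < B := by
    refine ⟨(∑ x, ∑ y, M x y) + 1, ?_⟩
    intro x y
    have h1 : M x y ≤ ∑ y, M x y := Finset.single_le_sum (f := fun y => M x y)
      (fun _ _ => Nat.zero_le _) (Finset.mem_univ y)
    have h2 : ∑ y, M x y ≤ ∑ x, ∑ y, M x y := Finset.single_le_sum (f := fun x => ∑ y, M x y)
      (fun _ _ => Nat.zero_le _) (Finset.mem_univ x)
    omega
  refine ⟨χ, B, ?_, ?_, step_free G M _ χ B hB hχ h.free, ?_⟩
  · intro x y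
    unfold stepM
    rw [blk_symm, h.symm]
  · intro x y z w hxy hzw hM
    obtain ⟨hb, hm⟩ := eq_imp (hB _ _) (hB _ _) hM
    have valinj : ∀ a b : ZMod (4 * 8 ^ k), a.val = b.val → a = b :=
      fun a b h => ZMod.val_injective _ h
    have c1 := blk_cases hxy
    have c2 := blk_cases hzw
    rcases h.inj _ _ _ _ hxy.1 hzw.1 hm with ⟨h1, h2⟩ | ⟨h1, h2⟩
    · left
      rcases c1 with ⟨c1, c1', c1''⟩ | ⟨c1, c1', c1''⟩
      · rcases c2 with ⟨c2, c2', c2''⟩ | ⟨c2, c2', c2''⟩
        · have : x.2 = z.2 := valinj _ _ (by omega)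
          exact ⟨Prod.ext h1 this, Prod.ext h2 (by rw [← c1, ← c2, this])⟩
        · omega
      · rcases c2 with ⟨c2, c2', c2''⟩ | ⟨c2, c2', c2''⟩
        · omega
        · have h3 : x.2 + χ x.1 = z.2 + χ z.1 := valinj _ _ (by omega)
          have h4 : y.2 + χ y.1 = w.2 + χ w.1 := by rw [← c1', ← c2', h3]
          rw [h1] at h3
          rw [h2] at h4
          exact ⟨Prod.ext h1 (add_right_cancel h3), Prod.ext h2 (add_right_cancel h4)⟩
    · right
      rcases c1 with ⟨c1, c1', c1''⟩ | ⟨c1, c1', c1''⟩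
      · rcases c2 with ⟨c2, c2', c2''⟩ | ⟨c2, c2', c2''⟩
        · have : x.2 = z.2 := valinj _ _ (by omega)
          exact ⟨Prod.ext h1 (by rw [this, c2]), Prod.ext h2 (by rw [← c1, this])⟩
        · omega
      · rcases c2 with ⟨c2, c2', c2''⟩ | ⟨c2, c2', c2''⟩
        · omega
        · have h3 : x.2 + χ x.1 = z.2 + χ z.1 := valinj _ _ (by omega)
          have h4 : x.2 + χ x.1 = w.2 + χ w.1 := by rw [h3, c2']
          have h5 : y.2 + χ y.1 = z.2 + χ z.1 := by rw [← c1', h3]
          rw [h1] at h4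
          rw [h2] at h5
          exact ⟨Prod.ext h1 (add_right_cancel h4), Prod.ext h2 (add_right_cancel h5)⟩
  · rintro ⟨x, i⟩
    have hset : (stepG G (4 * 8 ^ k) χ).neighborSet (x, i) =
        ((fun y => (y, i)) '' G.neighborSet x) ∪
        ((fun y => (y, i + χ x - χ y)) '' G.neighborSet x) := by
      ext ⟨y, j⟩
      constructor
      · rintro ⟨h1, h2 | h2⟩
        · left
          refine ⟨y, h1, ?_⟩
          have h2' : i = j := h2
          rw [h2']
        · right
          refine ⟨y, h1, ?_⟩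
          have h2' : i + χ x = j + χ y := h2
          rw [h2']
          simp
      · rintro (⟨y', h1, h2⟩ | ⟨y', h1, h2⟩)
        · simp only [Prod.mk.injEq] at h2
          obtain ⟨rfl, rfl⟩ := h2
          exact ⟨h1, Or.inl rfl⟩
        · simp only [Prod.mk.injEq] at h2
          obtain ⟨rfl, rfl⟩ := h2
          refine ⟨h1, Or.inr ?_⟩
          simp
    rw [hset, Set.ncard_union_eq]
    · rw [Set.ncard_image_of_injective, Set.ncard_image_of_injective, h.deg, pow_succ, mul_two]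
      · intro a b hab
        simp only [Prod.mk.injEq] at hab
        exact hab.1
      · intro a b hab
        simp only [Prod.mk.injEq] at hab
        exact hab.1
    · rw [Set.disjoint_left]
      rintro ⟨y, j⟩ ⟨y1, h1, h2⟩ ⟨y2, h3, h4⟩
      simp only [Prod.mk.injEq] at h2 h4
      obtain ⟨rfl, rfl⟩ := h2
      obtain ⟨rfl, h5⟩ := h4
      have h6 : χ x = χ y2 := by
        have : i + χ x = i + χ y2 := by
          rw [sub_eq_iff_eq_add] at h5
          exact h5
        exact add_left_cancel this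
      exact hχ _ _ ⟨h3.ne, Or.inl h3⟩ h6

/-- The exponent of the number of vertices. -/
def ex : ℕ → ℕ
  | 0 => 1
  | k + 1 => ex k + (3 * k + 2)

theorem ex_le (k : ℕ) : ex k ≤ 2 * (k + 1) ^ 2 := by
  induction k with
  | zero => simp [ex]
  | succ k ih =>
    simp only [ex]
    nlinarith

theorem host_exists (k : ℕ) : ∃ (V : Type) (_ : Fintype V) (G : SimpleGraph V) (M : V → V → ℕ),
    Host k V G M ∧ Fintype.card V = 2 ^ ex k := by
  induction k with
  | zero =>
    refine ⟨Bool, inferInstance, ⊤, fun _ _ => 0, ⟨fun _ _ => rfl, ?_, ?_, ?_⟩, by simp [ex]⟩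
    · intro x y z w hxy hzw _
      rw [SimpleGraph.top_adj] at hxy hzw
      revert x y z w
      decide
    · rintro ⟨v, -, -, h, -⟩
      exact lt_irrefl _ h
    · intro x
      have : (⊤ : SimpleGraph Bool).neighborSet x = {!x} := by
        ext y
        simp only [SimpleGraph.mem_neighborSet, SimpleGraph.top_adj, Set.mem_singleton_iff]
        revert x y
        decide
      rw [this, Set.ncard_singleton, pow_zero]
  | succ k ih =>
    obtain ⟨V, hV, G, M, hH, hc⟩ := ih
    obtain ⟨χ, B, h⟩ := step_host hH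
    have hne : NeZero (4 * 8 ^ k) := ⟨by positivity⟩
    refine ⟨V × ZMod (4 * 8 ^ k), inferInstance, _, _, h, ?_⟩
    rw [Fintype.card_prod, ZMod.card, hc, ex]
    have : (4 : ℕ) * 8 ^ k = 2 ^ (3 * k + 2) := by
      rw [pow_add, pow_mul]
      norm_num
      ring
    rw [this, ← pow_add]

end Pool.Agent.Lib.MP_79efce_co
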