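import Mathlib
import Pool.Agent.Lib.MP_79efce_co.Host
import Pool.Agent.Lib.MP_79efce_co.Dense

set_option autoImplicit false

/-!
# The edge-ordered path `61245783` and its extremal function
-/

namespace Pool.Agent.Lib.MP_79efce_co

open Finset

/-- ranks of the edges along the path -/
def rk : Fin 9 → ℕ := ![6, 1, 2, 4, 5, 7, 8, 3, 0]

/-- the edge labelling of the path -/
def L9 : Sym2 (Fin 9) → ℕ := Sym2.lift ⟨fun a b => rk (min a b), fun a b => by
  change rk (min a b) = rk (min b a)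
  rw [min_comm]⟩

theorem L9_edge (a : Fin 8) : L9 s(a.castSucc, a.succ) = rk a.castSucc := by
  change rk (min a.castSucc a.succ) = _
  rw [min_eq_left (Fin.castSucc_lt_succ).le]

theorem edge_form (e : Sym2 (Fin 9)) (he : e ∈ (SimpleGraph.pathGraph 9).edgeSet) :
    ∃ a : Fin 8, e = s(a.castSucc, a.succ) := by
  induction e using Sym2.ind with
  | _ x y =>
    rw [SimpleGraph.mem_edgeSet, SimpleGraph.pathGraph_adj] at he
    rcases he with h | h
    · refine ⟨⟨x.val, by omega⟩, ?_⟩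
      rw [Sym2.eq_iff]
      left
      constructor
      · apply Fin.ext; simp
      · apply Fin.ext; simp [h]
    · refine ⟨⟨y.val, by omega⟩, ?_⟩
      rw [Sym2.eq_iff]
      right
      constructor
      · apply Fin.ext; simp [h]
      · apply Fin.ext; simp

theorem edge_mem (a : Fin 8) : s(a.castSucc, a.succ) ∈ (SimpleGraph.pathGraph 9).edgeSet := by
  rw [SimpleGraph.mem_edgeSet, SimpleGraph.pathGraph_adj]
  left
  simp

theorem path_acyclic : (SimpleGraph.pathGraph 9).IsAcyclic := by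
  have h : (SimpleGraph.pathGraph 9).IsTree := by
    rw [SimpleGraph.isTree_iff_connected_and_card]
    refine ⟨SimpleGraph.pathGraph_connected 8, ?_⟩
    have h1 : (SimpleGraph.pathGraph 9).edgeSet =
        Set.range (fun a : Fin 8 => s(a.castSucc, a.succ)) := by
      ext e
      constructor
      · intro he
        obtain ⟨a, rfl⟩ := edge_form e he
        exact ⟨a, rfl⟩
      · rintro ⟨a, rfl⟩
        exact edge_mem a
    have h2 : Function.Injective (fun a : Fin 8 => s(a.castSucc, a.succ)) := by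
      intro a b hab
      have hab' : s(a.castSucc, a.succ) = s(b.castSucc, b.succ) := hab
      rw [Sym2.eq_iff] at hab'
      rcases hab' with ⟨h, -⟩ | ⟨h, h'⟩
      · exact Fin.castSucc_injective _ h
      · have e1 := congrArg Fin.val h
        have e2 := congrArg Fin.val h'
        simp at e1 e2
        omega
    rw [h1, Nat.card_range_of_injective h2]
    simp
  exact h.isAcyclic

theorem L9_injOn : Set.InjOn L9 (SimpleGraph.pathGraph 9).edgeSet := by
  intro e he f hf h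
  obtain ⟨a, rfl⟩ := edge_form e he
  obtain ⟨b, rfl⟩ := edge_form f hf
  rw [L9_edge, L9_edge] at h
  have key : ∀ a b : Fin 8, rk a.castSucc = rk b.castSucc → a = b := by decide
  rw [key a b h]

/-- The order condition in convenient form. -/
def Chain (m : Fin 8 → ℕ) : Prop :=
  m 1 < m 2 ∧ m 2 < m 7 ∧ m 7 < m 3 ∧ m 3 < m 4 ∧ m 4 < m 0 ∧ m 0 < m 5 ∧ m 5 < m 6

theorem chain_iff (m : Fin 8 → ℕ) : Chain m ↔
    ∀ a b : Fin 8, rk a.castSucc < rk b.castSucc → m a < m b := by
  constructor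
  · rintro ⟨h1, h2, h3, h4, h5, h6, h7⟩ a b hab
    fin_cases a <;> fin_cases b <;> first | (exfalso; revert hab; decide) | (simp only [Fin.mk_zero, Fin.mk_one, Fin.reduceFinMk]; omega)
  · intro h
    exact ⟨h _ _ (by decide), h _ _ (by decide), h _ _ (by decide), h _ _ (by decide),
      h _ _ (by decide), h _ _ (by decide), h _ _ (by decide)⟩

/-- Containment of the edge-ordered path, as in the frozen statement. -/
def Contains {n : ℕ} (G : SimpleGraph (Fin n)) (M : Sym2 (Fin n) → ℕ) : Prop :=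
  ∃ φ : Fin 9 ↪ Fin n, (∀ a b, (SimpleGraph.pathGraph 9).Adj a b → G.Adj (φ a) (φ b)) ∧
    ∀ e ∈ (SimpleGraph.pathGraph 9).edgeSet, ∀ f ∈ (SimpleGraph.pathGraph 9).edgeSet,
      L9 e < L9 f → M (Sym2.map (⇑φ) e) < M (Sym2.map (⇑φ) f)

theorem contains_of {n : ℕ} (G : SimpleGraph (Fin n)) (M : Sym2 (Fin n) → ℕ) (v : Fin 9 → Fin n)
    (hv : Function.Injective v) (hadj : ∀ a : Fin 8, G.Adj (v a.castSucc) (v a.succ))
    (hc : Chain fun a => M s(v a.castSucc, v a.succ)) : Contains G M := by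
  refine ⟨⟨v, hv⟩, ?_, ?_⟩
  · intro a b hab
    obtain ⟨c, hc⟩ := edge_form s(a, b) hab
    rw [Sym2.eq_iff] at hc
    rcases hc with ⟨rfl, rfl⟩ | ⟨rfl, rfl⟩
    · exact hadj c
    · exact (hadj c).symm
  · intro e he f hf hlt
    obtain ⟨a, rfl⟩ := edge_form e he
    obtain ⟨b, rfl⟩ := edge_form f hf
    rw [L9_edge, L9_edge] at hlt
    exact (chain_iff _).1 hc a b hlt

theorem of_contains {n : ℕ} (G : SimpleGraph (Fin n)) (M : Sym2 (Fin n) → ℕ)
    (h : Contains G M) : HasCopy G (fun a b => M s(a, b)) := by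
  obtain ⟨φ, h1, h2⟩ := h
  have hadj : ∀ a : Fin 8, G.Adj (φ a.castSucc) (φ a.succ) := fun a => h1 _ _ (edge_mem a)
  have hc : Chain fun a => M s(φ a.castSucc, φ a.succ) := by
    rw [chain_iff]
    intro a b hab
    exact h2 _ (edge_mem a) _ (edge_mem b) (by rw [L9_edge, L9_edge]; exact hab)
  refine ⟨φ, ⟨hadj 0, hadj 1, hadj 2, hadj 3, hadj 4, hadj 5, hadj 6, hadj 7⟩,
    ⟨?_, ?_, ?_⟩, hc⟩
  · exact fun h => absurd (φ.injective h) (by decide)
  · exact fun h => absurd (φ.injective h) (by decide)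
  · exact fun h => absurd (φ.injective h) (by decide)

/-- The upper bound. -/
theorem dense_contains (ε : ℝ) (hε : 0 < ε) : ∃ N : ℕ, ∀ n : ℕ, N ≤ n →
    ∀ (G : SimpleGraph (Fin n)) (M : Sym2 (Fin n) → ℕ), Set.InjOn M G.edgeSet →
      ¬ Contains G M → (G.edgeSet.ncard : ℝ) ≤ ε * (n : ℝ) ^ 2 := by
  classical
  obtain ⟨s, hs⟩ := exists_nat_gt (12 / ε)
  have hs0 : (0 : ℝ) < s := lt_trans (by positivity) hs
  have hspos : 0 < s := by exact_mod_cast hs0
  set δ : ℝ := ε / (3 * (s * s)) with hδ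
  have hδpos : 0 < δ := by positivity
  obtain ⟨N, hN⟩ := exists_nat_gt (4 * 2 ^ (s * s) / (δ ^ 5 * (ε / 3)))
  refine ⟨max N s, ?_⟩
  intro n hn G M hM hfree
  by_contra hcon
  push Not at hcon
  have hNn : (N : ℝ) ≤ n := by exact_mod_cast (le_max_left _ _).trans hn
  have hsn : s ≤ n := (le_max_right _ _).trans hn
  have hnpos : 0 < n := lt_of_lt_of_le hspos hsn
  have hn0 : (0 : ℝ) < n := by exact_mod_cast hnpos
  have hncard : (G.edgeSet.ncard : ℝ) = G.edgeFinset.card := by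
    rw [Set.ncard_eq_toFinset_card']
    rfl
  rw [hncard] at hcon
  obtain ⟨col, hcol, hccard, hcM⟩ := exists_intervals G.edgeFinset M
    (by rw [SimpleGraph.coe_edgeFinset]; exact hM) (s * s) (by positivity)
  set Sp : Finset (Fin n) := univ.filter fun v => 5 ≤ (heavy G col (s * s) δ v).card with hSp
  have h1 := spread_large G col s hspos hsn hcol hccard δ hδpos.le Sp
    (by
      intro v hv
      rw [hSp, Finset.mem_filter] at hv
      push Not at hv
      have := hv (Finset.mem_univ _)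
      omega)
  rw [pairs_card] at h1
  push_cast at h1
  have h2 : ε / 3 * n < Sp.card := by
    by_contra hc
    push Not at hc
    have e1 : (4 * n * (2 * n / s) : ℝ) ≤ 2 * (ε / 3) * n ^ 2 := by
      have : (4 * n * (2 * n / s) : ℝ) = (8 / s) * n ^ 2 := by
        field_simp
        ring
      rw [this]
      apply mul_le_mul_of_nonneg_right _ (by positivity)
      rw [div_le_iff₀ hs0]
      rw [div_lt_iff₀ hε] at hs
      linarith
    have e2 : ((s : ℝ) * s) * (δ * n) * n = ε / 3 * n ^ 2 := by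
      rw [hδ]
      field_simp
    have e3 : (Sp.card : ℝ) * n ≤ ε / 3 * n ^ 2 := by
      rw [pow_two, ← mul_assoc]
      exact mul_le_mul_of_nonneg_right hc hn0.le
    rw [e2] at h1
    linarith
  -- pigeonhole on the set of heavy colours
  have hmaps : ∀ v ∈ Sp, heavy G col (s * s) δ v ∈ (range (s * s)).powerset := by
    intro v _
    rw [Finset.mem_powerset]
    exact Finset.filter_subset _ _
  obtain ⟨S, hS, hScard⟩ := Finset.exists_le_card_fiber_of_nsmul_le_card_of_maps_to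
    (b := (Sp.card : ℝ) / 2 ^ (s * s)) hmaps ⟨∅, Finset.empty_mem_powerset _⟩
    (by
      rw [Finset.card_powerset, Finset.card_range, nsmul_eq_mul]
      push_cast
      rw [mul_div_cancel₀]
      positivity)
  set B : Finset (Fin n) := Sp.filter fun v => heavy G col (s * s) δ v = S with hB
  have hBcard : ε / 3 * n / 2 ^ (s * s) < B.card :=
    lt_of_lt_of_le (div_lt_div_of_pos_right h2 (by positivity)) hScard
  have hBpos : 0 < B.card := by
    have : (0 : ℝ) < B.card := lt_of_le_of_lt (by positivity) hBcard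
    exact_mod_cast this
  obtain ⟨w, hw⟩ := Finset.card_pos.1 hBpos
  have hS5 : 5 ≤ S.card := by
    rw [hB, Finset.mem_filter, hSp, Finset.mem_filter] at hw
    rw [← hw.2]
    exact hw.1.2
  let ι := S.orderEmbOfCardLe hS5
  have hι : ∀ j, ι j ∈ S := fun j => Finset.orderEmbOfCardLe_mem S hS5 j
  obtain ⟨a, C, hCB, hCcard, hC⟩ := pick_rows G col δ hδpos.le hnpos (List.ofFn ι) B
    (by
      intro v hv i hi
      rw [List.mem_ofFn] at hi
      obtain ⟨j, rfl⟩ := hi
      rw [hB, Finset.mem_filter] at hv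
      have := hι j
      rw [← hv.2, heavy, Finset.mem_filter] at this
      exact this.2)
  rw [List.length_ofFn] at hCcard
  have hC4 : 4 ≤ C.card := by
    have e1 : (4 : ℝ) < C.card := by
      have e2 : 4 * 2 ^ (s * s) / (δ ^ 5 * (ε / 3)) < (n : ℝ) := lt_of_lt_of_le hN hNn
      rw [div_lt_iff₀ (by positivity)] at e2
      have e3 : δ ^ 5 * (ε / 3 * n / 2 ^ (s * s)) ≤ C.card :=
        (mul_le_mul_of_nonneg_left hBcard.le (by positivity)).trans hCcard
      have e4 : δ ^ 5 * (ε / 3 * n / 2 ^ (s * s)) = (n * (δ ^ 5 * (ε / 3))) / 2 ^ (s * s) := by ring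
      rw [e4] at e3
      refine lt_of_lt_of_le ?_ e3
      rw [lt_div_iff₀ (by positivity)]
      exact e2
    have e5 : (4 : ℕ) < C.card := by exact_mod_cast e1
    omega
  -- rows
  have hrow : ∀ v ∈ C, ∀ j : Fin 5, G.Adj v (a (ι j)) ∧ col s(v, a (ι j)) = ι j := by
    intro v hv j
    exact hC v hv (ι j) (by rw [List.mem_ofFn]; exact ⟨j, rfl⟩)
  have hmem : ∀ v ∈ C, ∀ j : Fin 5, s(v, a (ι j)) ∈ G.edgeFinset := by
    intro v hv j
    rw [SimpleGraph.mem_edgeFinset, SimpleGraph.mem_edgeSet]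
    exact (hrow v hv j).1
  have hcross : ∀ v ∈ C, ∀ u ∈ C, ∀ i j : Fin 5, i < j →
      M s(v, a (ι i)) < M s(u, a (ι j)) := by
    intro v hv u hu i j hij
    apply hcM _ (hmem v hv i) _ (hmem u hu j)
    rw [(hrow v hv i).2, (hrow u hu j).2]
    exact ι.strictMono hij
  have hinj : ∀ v ∈ C, ∀ u ∈ C, ∀ j : Fin 5, v ≠ u → M s(v, a (ι j)) ≠ M s(u, a (ι j)) := by
    intro v hv u hu j hne h
    have h3 := hM (by simpa using hmem v hv j) (by simpa using hmem u hu j) h
    rw [Sym2.eq_iff] at h3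
    rcases h3 with ⟨h4, -⟩ | ⟨h4, h5⟩
    · exact hne h4
    · exact hne (h4.trans h5)
  have hCne : C.Nonempty := Finset.card_pos.1 (by omega)
  obtain ⟨v1, hv1, hmin⟩ := C.exists_min_image (fun v => M s(v, a (ι 0))) hCne
  have hC'card : 3 ≤ (C.erase v1).card := by rw [Finset.card_erase_of_mem hv1]; omega
  obtain ⟨v7, hv7', hmax⟩ := (C.erase v1).exists_max_image (fun v => M s(v, a (ι 4)))
    (Finset.card_pos.1 (by omega))
  have hC''card : 1 < ((C.erase v1).erase v7).card := by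
    rw [Finset.card_erase_of_mem hv7']; omega
  obtain ⟨x, hx, y, hy, hxy⟩ := Finset.one_lt_card.1 hC''card
  obtain ⟨v3, v5, hv3, hv5, h35, hlt35⟩ : ∃ v3 v5, v3 ∈ (C.erase v1).erase v7 ∧
      v5 ∈ (C.erase v1).erase v7 ∧ v3 ≠ v5 ∧ M s(v3, a (ι 2)) < M s(v5, a (ι 2)) := by
    have hxC : x ∈ C := Finset.mem_of_mem_erase (Finset.mem_of_mem_erase hx)
    have hyC : y ∈ C := Finset.mem_of_mem_erase (Finset.mem_of_mem_erase hy)
    rcases lt_or_gt_of_ne (hinj x hxC y hyC 2 hxy) with h | h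
    · exact ⟨x, y, hx, hy, hxy, h⟩
    · exact ⟨y, x, hy, hx, hxy.symm, h⟩
  rw [Finset.mem_erase, Finset.mem_erase] at hv3 hv5
  rw [Finset.mem_erase] at hv7'
  obtain ⟨h37, h31, hv3⟩ := hv3
  obtain ⟨h57, h51, hv5⟩ := hv5
  obtain ⟨h71, hv7⟩ := hv7'
  have hlt13 : M s(v1, a (ι 0)) < M s(v3, a (ι 0)) :=
    lt_of_le_of_ne (hmin v3 hv3) (hinj v1 hv1 v3 hv3 0 h31.symm)
  have hlt57 : M s(v5, a (ι 4)) < M s(v7, a (ι 4)) :=
    lt_of_le_of_ne (hmax v5 (Finset.mem_erase.2 ⟨h51, hv5⟩)) (hinj v5 hv5 v7 hv7 4 h57)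
  have hrne : ∀ i j : Fin 5, i < j → a (ι i) ≠ a (ι j) := by
    intro i j hij h
    have := hcross v1 hv1 v1 hv1 i j hij
    rw [h] at this
    exact lt_irrefl _ this
  have hrc : ∀ v ∈ C, ∀ j : Fin 5, v ≠ a (ι j) := fun v hv j => (hrow v hv j).1.ne
  apply hfree
  refine contains_of G M ![a (ι 3), v1, a (ι 0), v3, a (ι 2), v5, a (ι 4), v7, a (ι 1)] ?_ ?_ ?_
  · rw [← List.nodup_ofFn]
    have r01 := hrne 0 1 (by decide)
    have r02 := hrne 0 2 (by decide)
    have r03 := hrne 0 3 (by decide)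
    have r04 := hrne 0 4 (by decide)
    have r12 := hrne 1 2 (by decide)
    have r13 := hrne 1 3 (by decide)
    have r14 := hrne 1 4 (by decide)
    have r23 := hrne 2 3 (by decide)
    have r24 := hrne 2 4 (by decide)
    have r34 := hrne 3 4 (by decide)
    have c1 := hrc v1 hv1
    have c3 := hrc v3 hv3
    have c5 := hrc v5 hv5
    have c7 := hrc v7 hv7
    simp only [List.ofFn_succ, List.ofFn_zero, List.nodup_cons, List.mem_cons, List.not_mem_nil,
      or_false, not_or, List.nodup_nil, and_true, not_false_eq_true]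
    refine ⟨⟨(c1 3).symm, r03.symm, (c3 3).symm, r23.symm, (c5 3).symm, r34, (c7 3).symm,
      r13.symm⟩, ⟨c1 0, h31.symm, c1 2, h51.symm, c1 4, h71.symm, c1 1⟩, ⟨(c3 0).symm, r02,
      (c5 0).symm, r04, (c7 0).symm, r01⟩, ⟨c3 2, h35, c3 4, h37, c3 1⟩, ⟨(c5 2).symm, r24,
      (c7 2).symm, r12.symm⟩, ⟨c5 4, h57, c5 1⟩, ⟨(c7 4).symm, r14.symm⟩, c7 1⟩
  · intro j
    fin_cases j
    · exact (hrow v1 hv1 3).1.symm
    · exact (hrow v1 hv1 0).1
    · exact (hrow v3 hv3 0).1.symm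
    · exact (hrow v3 hv3 2).1
    · exact (hrow v5 hv5 2).1.symm
    · exact (hrow v5 hv5 4).1
    · exact (hrow v7 hv7 4).1.symm
    · exact (hrow v7 hv7 1).1
  · refine ⟨?_, ?_, ?_, ?_, ?_, ?_, ?_⟩
    · change M s(v1, a (ι 0)) < M s(a (ι 0), v3)
      rw [Sym2.eq_swap (a := a (ι 0))]
      exact hlt13
    · change M s(a (ι 0), v3) < M s(v7, a (ι 1))
      rw [Sym2.eq_swap (a := a (ι 0))]
      exact hcross v3 hv3 v7 hv7 0 1 (by decide)
    · change M s(v7, a (ι 1)) < M s(v3, a (ι 2))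
      exact hcross v7 hv7 v3 hv3 1 2 (by decide)
    · change M s(v3, a (ι 2)) < M s(a (ι 2), v5)
      rw [Sym2.eq_swap (a := a (ι 2))]
      exact hlt35
    · change M s(a (ι 2), v5) < M s(a (ι 3), v1)
      rw [Sym2.eq_swap (a := a (ι 2)), Sym2.eq_swap (a := a (ι 3))]
      exact hcross v5 hv5 v1 hv1 2 3 (by decide)
    · change M s(a (ι 3), v1) < M s(v5, a (ι 4))
      rw [Sym2.eq_swap (a := a (ι 3))]
      exact hcross v1 hv1 v5 hv5 3 4 (by decide)
    · change M s(v5, a (ι 4)) < M s(a (ι 4), v7)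
      rw [Sym2.eq_swap (a := a (ι 4))]
      exact hlt57

/-- Transfer of a host to `Fin n`. -/
theorem host_fin (k : ℕ) : ∃ (G : SimpleGraph (Fin (2 ^ ex k))) (M : Sym2 (Fin (2 ^ ex k)) → ℕ),
    Set.InjOn M G.edgeSet ∧ ¬ Contains G M ∧ 2 * G.edgeSet.ncard = 2 ^ ex k * 2 ^ k := by
  classical
  obtain ⟨V, hV, G, M, hH, hcard⟩ := host_exists k
  obtain ⟨e⟩ : Nonempty (V ≃ Fin (2 ^ ex k)) := by
    rw [← Fintype.card_eq, hcard, Fintype.card_fin]
  let G' : SimpleGraph (Fin (2 ^ ex k)) := G.comap e.symm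
  let M' : Sym2 (Fin (2 ^ ex k)) → ℕ := Sym2.lift ⟨fun a b => M (e.symm a) (e.symm b),
    fun a b => hH.symm _ _⟩
  have hM' : ∀ a b, M' s(a, b) = M (e.symm a) (e.symm b) := fun a b => rfl
  refine ⟨G', M', ?_, ?_, ?_⟩
  · intro x hx y hy hxy
    induction x using Sym2.ind with
    | _ a b =>
      induction y using Sym2.ind with
      | _ c d =>
        rw [hM', hM'] at hxy
        have hx' : G.Adj (e.symm a) (e.symm b) := hx
        have hy' : G.Adj (e.symm c) (e.symm d) := hy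
        rcases hH.inj _ _ _ _ hx' hy' hxy with ⟨h1, h2⟩ | ⟨h1, h2⟩
        · rw [e.symm.injective h1, e.symm.injective h2]
        · rw [e.symm.injective h1, e.symm.injective h2, Sym2.eq_swap]
  · intro h
    obtain ⟨v, h1, ⟨h2, h3, h4⟩, h5⟩ := of_contains G' M' h
    apply hH.free
    exact ⟨fun i => e.symm (v i), h1, ⟨fun h => h2 (e.symm.injective h),
      fun h => h3 (e.symm.injective h), fun h => h4 (e.symm.injective h)⟩, h5⟩
  · have h1 : ∀ x, G'.degree x = 2 ^ k := by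
      intro x
      rw [← SimpleGraph.card_neighborSet_eq_degree, ← Nat.card_eq_fintype_card,
        Nat.card_coe_set_eq, ← hH.deg (e.symm x)]
      have : G'.neighborSet x = e '' G.neighborSet (e.symm x) := by
        ext y
        rw [Equiv.image_eq_preimage_symm]
        rfl
      rw [this, Set.ncard_image_of_injective _ e.injective]
    have h2 := G'.sum_degrees_eq_twice_card_edges
    rw [Finset.sum_congr rfl (fun x _ => h1 x), Finset.sum_const, Finset.card_univ,
      Fintype.card_fin, smul_eq_mul] at h2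
    rw [Set.ncard_eq_toFinset_card', h2]
    rfl

/-- The density of the hosts beats every polylogarithm. -/
theorem growth (c : ℕ) (C : ℝ) : ∃ k : ℕ,
    C * (Real.log ((2 : ℝ) ^ ex k)) ^ c < 2 ^ k / 2 := by
  have h1 : Filter.Tendsto (fun k : ℕ => ((k : ℝ) ^ (2 * c)) / 2 ^ k) Filter.atTop (nhds 0) :=
    tendsto_pow_const_div_const_pow_of_one_lt (2 * c) (by norm_num)
  set D : ℝ := 2 * (|C| + 1) * 8 ^ c with hD
  have hDpos : 0 < D := by positivity
  have h2 := h1.eventually (gt_mem_nhds (show (0 : ℝ) < 1 / D by positivity))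
  obtain ⟨k, hk, hk1⟩ := (h2.and (Filter.eventually_ge_atTop 1)).exists
  refine ⟨k, ?_⟩
  rw [div_lt_div_iff₀ (by positivity) hDpos, one_mul] at hk
  have hk1' : (1 : ℝ) ≤ k := by exact_mod_cast hk1
  have h3 : Real.log ((2 : ℝ) ^ ex k) ≤ 8 * (k : ℝ) ^ 2 := by
    rw [Real.log_pow]
    have h4 : (ex k : ℝ) ≤ 2 * ((k : ℝ) + 1) ^ 2 := by exact_mod_cast ex_le k
    have h5 : Real.log 2 ≤ 1 := by
      have := Real.log_two_lt_d9
      linarith
    have h6 : 0 ≤ Real.log 2 := Real.log_nonneg (by norm_num)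
    have h7 : (0 : ℝ) ≤ ex k := by positivity
    nlinarith
  have h8 : 0 ≤ Real.log ((2 : ℝ) ^ ex k) := Real.log_nonneg (one_le_pow₀ (by norm_num))
  have h9 : (Real.log ((2 : ℝ) ^ ex k)) ^ c ≤ (8 * (k : ℝ) ^ 2) ^ c := by gcongr
  have h10 : C * (Real.log ((2 : ℝ) ^ ex k)) ^ c ≤ (|C| + 1) * (8 * (k : ℝ) ^ 2) ^ c := by
    have e1 : C ≤ |C| + 1 := by
      have := le_abs_self C
      linarith
    calc C * (Real.log ((2 : ℝ) ^ ex k)) ^ c ≤ (|C| + 1) * (Real.log ((2 : ℝ) ^ ex k)) ^ c :=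
          mul_le_mul_of_nonneg_right e1 (by positivity)
      _ ≤ _ := mul_le_mul_of_nonneg_left h9 (by positivity)
  refine lt_of_le_of_lt h10 ?_
  have h11 : (|C| + 1) * (8 * (k : ℝ) ^ 2) ^ c = (k : ℝ) ^ (2 * c) * D / 2 := by
    rw [hD, mul_pow, ← pow_mul]
    ring
  rw [h11]
  linarith

end Pool.Agent.Lib.MP_79efce_co
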