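import Pool.Agent.Lib.MP_79efce_co.OwnDefs

set_option autoImplicit false

namespace Pool.Agent.Lib.MP_79efce_co

open Finset

theorem P9_lt (e f : (SimpleGraph.pathGraph 9).edgeSet) : P9.ord.lt e f ↔ L9 e < L9 f := Iff.rfl

/-- Rank function of a finite linear order. -/
theorem exists_rank (α : Type) [Finite α] (o : LinearOrder α) :
    ∃ r : α → ℕ, ∀ e f : α, o.lt e f ↔ r e < r f := by
  classical
  let _ := o
  have : Fintype α := Fintype.ofFinite _
  let r : α → ℕ := fun e => (univ.filter fun f : α => f < e).card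
  have hr : StrictMono r := by
    intro e f hef
    apply Finset.card_lt_card
    rw [Finset.ssubset_iff_of_subset]
    · exact ⟨e, by simpa using hef, by simp⟩
    · intro g hg
      simp only [Finset.mem_filter, Finset.mem_univ, true_and] at hg ⊢
      exact lt_trans hg hef
  exact ⟨r, fun e f => (hr.lt_iff_lt).symm⟩

/-- Rank labels of a linear order on the edges of a finite graph. -/
theorem exists_labels {n : ℕ} (G : SimpleGraph (Fin n)) (o : LinearOrder G.edgeSet) :
    ∃ M : Sym2 (Fin n) → ℕ, ∀ e f : G.edgeSet, o.lt e f ↔ M e < M f := by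
  classical
  obtain ⟨r, hr⟩ := exists_rank G.edgeSet o
  refine ⟨fun x => if h : x ∈ G.edgeSet then r ⟨x, h⟩ else 0, ?_⟩
  intro e f
  have he : (if h : (e : Sym2 (Fin n)) ∈ G.edgeSet then r ⟨e, h⟩ else 0) = r e := by
    rw [dif_pos e.2]
  have hf : (if h : (f : Sym2 (Fin n)) ∈ G.edgeSet then r ⟨f, h⟩ else 0) = r f := by
    rw [dif_pos f.2]
  simp only [he, hf]
  exact hr e f

theorem contains_iff {n : ℕ} (G : SimpleGraph (Fin n)) (o : LinearOrder G.edgeSet)
    (M : Sym2 (Fin n) → ℕ) (hM : ∀ e f : G.edgeSet, o.lt e f ↔ M e < M f) :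
    (EOGraph.mk G o).Contains P9 ↔ Contains G M := by
  constructor
  · rintro ⟨φ, hinj, hφ⟩
    refine ⟨⟨φ, hinj⟩, fun a b hab => φ.map_adj hab, ?_⟩
    intro e he f hf hlt
    have h1 := hφ ⟨e, he⟩ ⟨f, hf⟩ hlt
    exact (hM _ _).1 h1
  · rintro ⟨φ, h1, h2⟩
    refine ⟨⟨φ, fun {a b} hab => h1 a b hab⟩, φ.injective, ?_⟩
    intro e f hef
    exact (hM _ _).2 (h2 e e.2 f f.2 hef)

theorem injOn_of_labels {n : ℕ} (G : SimpleGraph (Fin n)) (o : LinearOrder G.edgeSet)
    (M : Sym2 (Fin n) → ℕ) (hM : ∀ e f : G.edgeSet, o.lt e f ↔ M e < M f) :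
    Set.InjOn M G.edgeSet := by
  intro x hx y hy hxy
  by_contra hne
  have hne' : (⟨x, hx⟩ : G.edgeSet) ≠ ⟨y, hy⟩ := fun h => hne (congrArg Subtype.val h)
  rcases @lt_or_gt_of_ne _ o _ _ hne' with h | h
  · exact absurd ((hM ⟨x, hx⟩ ⟨y, hy⟩).1 h) (by simp only [hxy]; exact lt_irrefl _)
  · exact absurd ((hM ⟨y, hy⟩ ⟨x, hx⟩).1 h) (by simp only [hxy]; exact lt_irrefl _)

/-- Lower bounds for the extremal function from injectively labelled graphs. -/
theorem le_exLt {n : ℕ} (G : SimpleGraph (Fin n)) (M : Sym2 (Fin n) → ℕ)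
    (hinj : Set.InjOn M G.edgeSet) (hfree : ¬ Contains G M) :
    G.edgeSet.ncard ≤ exLt n P9 := by
  classical
  apply le_csSup
  · refine ⟨(Set.univ : Set (Sym2 (Fin n))).ncard, ?_⟩
    rintro m ⟨G', -, rfl⟩
    exact Set.ncard_le_ncard (Set.subset_univ _) (Set.toFinite _)
  · let o : LinearOrder G.edgeSet := LinearOrder.lift' (fun e : G.edgeSet => M e)
      (fun e f h => Subtype.ext (hinj e.2 f.2 h))
    exact ⟨⟨G, o⟩, fun h => hfree ((contains_iff G o M (fun e f => Iff.rfl)).1 h), rfl⟩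

/-- The order chromatic number of the path is two. -/
theorem orderChromaticNumber_P9 : orderChromaticNumber P9 = 2 := by
  classical
  apply le_antisymm
  · obtain ⟨N, hN⟩ := dense_contains (1 / 5) (by norm_num)
    let m : ℕ := N + 1
    let K : SimpleGraph (Fin (2 * m)) :=
      { Adj := fun a b => a.val % 2 ≠ b.val % 2
        symm := ⟨fun a b h => h.symm⟩
        loopless := ⟨fun a h => h rfl⟩ }
    have hcol : K.Colorable 2 := by
      refine ⟨SimpleGraph.Coloring.mk (fun a => (⟨a.val % 2, Nat.mod_lt _ (by norm_num)⟩ : Fin 2))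
        ?_⟩
      intro a b hab h
      exact hab (congrArg Fin.val h)
    have hcard : m * m ≤ K.edgeSet.ncard := by
      let g : Fin m × Fin m → Sym2 (Fin (2 * m)) := fun p =>
        s(⟨2 * p.1.val, by omega⟩, ⟨2 * p.2.val + 1, by omega⟩)
      have hg : Function.Injective g := by
        rintro ⟨a, b⟩ ⟨c, d⟩ h
        simp only [g] at h
        rw [Sym2.eq_iff] at h
        rcases h with ⟨h1, h2⟩ | ⟨h1, h2⟩
        · rw [Fin.mk.injEq] at h1 h2
          ext <;> simp only <;> omega
        · rw [Fin.mk.injEq] at h1 h2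
          omega
      have hsub : g '' Set.univ ⊆ K.edgeSet := by
        rintro _ ⟨p, -, rfl⟩
        change (2 * p.1.val) % 2 ≠ (2 * p.2.val + 1) % 2
        omega
      have h1 := Set.ncard_le_ncard hsub (Set.toFinite _)
      rw [Set.ncard_image_of_injective _ hg, Set.ncard_univ] at h1
      simpa using h1
    refine iInf_le_of_le (2 * m) (iInf_le_of_le K (iInf_le_of_le ?_ ?_))
    · intro o
      obtain ⟨M, hM⟩ := exists_labels K o
      rw [contains_iff K o M hM]
      by_contra hcon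
      have h1 := hN (2 * m) (by omega) K M (injOn_of_labels K o M hM) hcon
      have h2 : ((m * m : ℕ) : ℝ) ≤ K.edgeSet.ncard := by exact_mod_cast hcard
      push_cast at h1 h2
      have h3 : (1 : ℝ) ≤ m := by
        simp only [m]
        push_cast
        linarith [(Nat.cast_nonneg N : (0 : ℝ) ≤ N)]
      nlinarith
    · exact_mod_cast hcol.chromaticNumber_le
  · refine le_iInf fun k => le_iInf fun K => le_iInf fun h => ?_
    obtain ⟨e⟩ : Nonempty (K.edgeSet ≃ Fin (Nat.card K.edgeSet)) :=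
      ⟨Finite.equivFin _⟩
    obtain ⟨φ, -, -⟩ := h (LinearOrder.lift' e e.injective)
    have h01 : (SimpleGraph.pathGraph 9).Adj (0 : Fin 9) 1 := by
      have := edge_mem 0
      exact this
    exact SimpleGraph.two_le_chromaticNumber_of_adj (φ.map_adj h01)

end Pool.Agent.Lib.MP_79efce_co
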