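import Pool.Agent.Lib.MP_79efce_co.OwnA

set_option autoImplicit false

namespace Pool.Agent.Lib.MP_79efce_co

open Finset

section Blocks

variable {N n : ℕ} (hN : 0 < N) (G : SimpleGraph (Fin N)) (M : Sym2 (Fin N) → ℕ)

/-- Residue of a vertex. -/
def resid (hN : 0 < N) (a : Fin n) : Fin N := ⟨a.val % N, Nat.mod_lt _ hN⟩

/-- Disjoint copies of `G` on consecutive blocks of length `N`. -/
def blockG : SimpleGraph (Fin n) where
  Adj a b := a.val / N = b.val / N ∧ G.Adj (resid hN a) (resid hN b)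
  symm := ⟨fun _ _ h => ⟨h.1.symm, h.2.symm⟩⟩
  loopless := ⟨fun _ h => G.loopless.irrefl _ h.2⟩

/-- Labels of the disjoint copies. -/
def blockM : Sym2 (Fin n) → ℕ := Sym2.lift ⟨fun a b =>
  M s(resid hN a, resid hN b) * (n + 1) + min (a.val / N) (b.val / N), fun a b => by
    beta_reduce
    rw [Sym2.eq_swap, min_comm]⟩

theorem blockM_mk (a b : Fin n) : blockM hN M s(a, b) =
    M s(resid hN a, resid hN b) * (n + 1) + min (a.val / N) (b.val / N) := rfl

theorem eq_of_div_resid (a b : Fin n) (h1 : a.val / N = b.val / N)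
    (h2 : resid hN a = resid hN b) : a = b := by
  have h3 : a.val % N = b.val % N := congrArg Fin.val h2
  ext
  rw [← Nat.div_add_mod a.val N, ← Nat.div_add_mod b.val N, h1, h3]

theorem div_lt_succ (a : Fin n) : a.val / N < n + 1 :=
  lt_of_le_of_lt (Nat.div_le_self _ _) (by omega)

theorem blockM_injOn (hM : Set.InjOn M G.edgeSet) :
    Set.InjOn (blockM (n := n) hN M) (blockG (n := n) hN G).edgeSet := by
  intro x hx y hy hxy
  induction x using Sym2.ind with
  | _ a b =>
    induction y using Sym2.ind with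
    | _ c d =>
      have hab : a.val / N = b.val / N ∧ G.Adj (resid hN a) (resid hN b) := hx
      have hcd : c.val / N = d.val / N ∧ G.Adj (resid hN c) (resid hN d) := hy
      rw [blockM_mk, blockM_mk, ← hab.1, ← hcd.1, min_self, min_self] at hxy
      have h1 := div_lt_succ (N := N) a
      have h2 := div_lt_succ (N := N) c
      have h3 : a.val / N = c.val / N := by
        have h6 := congrArg (fun t => t % (n + 1)) hxy
        simp only [Nat.add_mod, Nat.mul_mod_left, zero_add,
          Nat.mod_eq_of_lt h1, Nat.mod_eq_of_lt h2] at h6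
        exact h6
      have h4 : M s(resid hN a, resid hN b) = M s(resid hN c, resid hN d) := by
        rw [h3] at hxy
        have := Nat.add_right_cancel hxy
        exact Nat.eq_of_mul_eq_mul_right (Nat.succ_pos n) this
      have h5 := hM hab.2 hcd.2 h4
      rw [Sym2.eq_iff] at h5 ⊢
      rcases h5 with ⟨h5, h6⟩ | ⟨h5, h6⟩
      · left
        exact ⟨eq_of_div_resid hN _ _ h3 h5,
          eq_of_div_resid hN _ _ (by rw [← hab.1, h3, hcd.1]) h6⟩
      · right
        exact ⟨eq_of_div_resid hN _ _ (by rw [h3, hcd.1]) h5,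
          eq_of_div_resid hN _ _ (by rw [← hab.1, h3]) h6⟩

theorem block_free (hfree : ¬ Contains G M) :
    ¬ Contains (blockG (n := n) hN G) (blockM hN M) := by
  rintro ⟨φ, h1, h2⟩
  apply hfree
  have hadj : ∀ a : Fin 8, (φ a.castSucc).val / N = (φ a.succ).val / N ∧
      G.Adj (resid hN (φ a.castSucc)) (resid hN (φ a.succ)) := fun a => h1 _ _ (edge_mem a)
  have hblock : ∀ a : Fin 9, (φ a).val / N = (φ 0).val / N := by
    intro a
    induction a using Fin.induction with
    | zero => rfl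
    | succ a ih => rw [← (hadj a).1, ih]
  apply contains_of G M (fun a => resid hN (φ a))
  · intro a b hab
    apply φ.injective
    exact eq_of_div_resid hN _ _ (by rw [hblock a, hblock b]) hab
  · exact fun a => (hadj a).2
  · rw [chain_iff]
    intro a b hab
    have h3 := h2 _ (edge_mem a) _ (edge_mem b) (by rw [L9_edge, L9_edge]; exact hab)
    rw [Sym2.map_mk, Sym2.map_mk] at h3
    rw [blockM_mk, blockM_mk, hblock a.castSucc, hblock a.succ, hblock b.castSucc,
      hblock b.succ, min_self] at h3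
    have h4 := Nat.lt_of_add_lt_add_right h3
    exact Nat.lt_of_mul_lt_mul_right h4

theorem block_card :
    (n / N) * G.edgeSet.ncard ≤ (blockG (n := n) hN G).edgeSet.ncard := by
  classical
  have hlt : ∀ (i : Fin (n / N)) (x : Fin N), i.val * N + x.val < n := by
    intro i x
    have h1 : (i.val + 1) * N ≤ (n / N) * N := Nat.mul_le_mul_right _ i.isLt
    have h2 : (n / N) * N ≤ n := Nat.div_mul_le_self _ _
    have h3 := x.isLt
    nlinarith
  let f : Fin (n / N) → Fin N → Fin n := fun i x => ⟨i.val * N + x.val, hlt i x⟩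
  have hdiv : ∀ i x, (f i x).val / N = i.val := by
    intro i x
    simp only [f]
    rw [mul_comm, Nat.mul_add_div hN, Nat.div_eq_of_lt x.isLt, add_zero]
  have hres : ∀ i x, resid hN (f i x) = x := by
    intro i x
    ext
    simp only [f, resid]
    rw [mul_comm, Nat.mul_add_mod, Nat.mod_eq_of_lt x.isLt]
  have hfi : ∀ i, Function.Injective (f i) := by
    intro i x y hxy
    rw [← hres i x, ← hres i y, hxy]
  let g : Fin (n / N) × Sym2 (Fin N) → Sym2 (Fin n) := fun p => Sym2.map (f p.1) p.2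
  have hg : Function.Injective g := by
    rintro ⟨i, e⟩ ⟨j, e'⟩ h
    simp only [g] at h
    have hij : i = j := by
      induction e using Sym2.ind with
      | _ a b =>
        have h1 : f i a ∈ Sym2.map (f i) s(a, b) := by
          rw [Sym2.map_mk]
          exact Sym2.mem_mk_left _ _
        rw [h, Sym2.mem_map] at h1
        obtain ⟨c, -, hc⟩ := h1
        ext
        rw [← hdiv i a, ← hc, hdiv]
    subst hij
    rw [Sym2.map.injective (hfi i) h]
  have hsub : g '' (Set.univ ×ˢ G.edgeSet) ⊆ (blockG (n := n) hN G).edgeSet := by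
    rintro _ ⟨⟨i, e⟩, ⟨-, he⟩, rfl⟩
    induction e using Sym2.ind with
    | _ a b =>
      change (f i a).val / N = (f i b).val / N ∧ G.Adj (resid hN (f i a)) (resid hN (f i b))
      rw [hdiv, hdiv, hres, hres]
      exact ⟨rfl, he⟩
  have h1 := Set.ncard_le_ncard hsub (Set.toFinite _)
  rw [Set.ncard_image_of_injective _ hg, Set.ncard_prod, Set.ncard_univ, Nat.card_eq_fintype_card,
    Fintype.card_fin] at h1
  exact h1

end Blocks

/-- Lower bound for every `n ≥ 2 ^ ex k`. -/
theorem le_exLt_of_ex_le (k n : ℕ) (h : 2 ^ ex k ≤ n) : n * 2 ^ k ≤ 4 * exLt n P9 := by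
  obtain ⟨G, M, hM, hfree, hcard⟩ := host_fin k
  have hN : 0 < 2 ^ ex k := by positivity
  have h1 := le_exLt (blockG (n := n) hN G) (blockM hN M) (blockM_injOn hN G M hM)
    (block_free hN G M hfree)
  have h2 := block_card (n := n) hN G
  revert h hN G M hM hfree hcard h1 h2
  generalize 2 ^ ex k = N
  intro h G M hM hfree hcard hN h1 h2
  have h3 : n ≤ 2 * (n / N * N) := by
    have h4 : n < (n / N + 1) * N := by
      rw [add_mul, one_mul]
      exact Nat.lt_div_mul_add hN
    have h5 : 1 ≤ n / N := (Nat.one_le_div_iff hN).2 h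
    nlinarith
  calc n * 2 ^ k ≤ 2 * (n / N * N) * 2 ^ k := Nat.mul_le_mul_right _ h3
    _ = 2 * (n / N) * (N * 2 ^ k) := by ring
    _ = 2 * (n / N) * (2 * G.edgeSet.ncard) := by rw [hcard]
    _ = 4 * (n / N * G.edgeSet.ncard) := by ring
    _ ≤ 4 * exLt n P9 := Nat.mul_le_mul_left _ (h2.trans h1)

/-- The lower bound `n 2 ^ (sqrt (log n) / 2)` for all large `n`. -/
theorem lower_bound : ∃ N : ℕ, ∀ n : ℕ, N ≤ n →
    (n : ℝ) * 2 ^ (Real.sqrt (Real.log n) / 2) ≤ exLt n P9 := by
  refine ⟨⌈Real.exp 256⌉₊, fun n hn => ?_⟩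
  have hn1 : Real.exp 256 ≤ n := (Nat.le_ceil _).trans (by exact_mod_cast hn)
  have hn0 : (0 : ℝ) < n := lt_of_lt_of_le (Real.exp_pos _) hn1
  set L := Real.log n with hL
  have hL1 : 256 ≤ L := by
    rw [hL, Real.le_log_iff_exp_le hn0]
    exact hn1
  set s := Real.sqrt L with hs
  have hs2 : s ^ 2 = L := Real.sq_sqrt (by linarith)
  have hs0 : 0 ≤ s := Real.sqrt_nonneg _
  have hs16 : 16 ≤ s := by nlinarith
  -- the largest k with 2 ^ ex k ≤ n
  have hex0 : 2 ^ ex 0 ≤ n := by
    have h1 : (2 : ℝ) ≤ n := by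
      have h2 : (256 : ℝ) + 1 ≤ Real.exp 256 := Real.add_one_le_exp _
      linarith
    simp only [ex, pow_one]
    exact_mod_cast h1
  have hgrow : ∀ k, k ≤ ex k := by
    intro k
    induction k with
    | zero => simp
    | succ k ih => simp only [ex]; omega
  have hex : ∃ k, 2 ^ ex k ≤ n ∧ n < 2 ^ ex (k + 1) := by
    classical
    have hfind : ∃ j, n < 2 ^ ex j := ⟨n, lt_of_lt_of_le Nat.lt_two_pow_self
      (Nat.pow_le_pow_right (by norm_num) (hgrow n))⟩
    have h1 := Nat.find_spec hfind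
    have h2 : Nat.find hfind ≠ 0 := by
      intro h0
      rw [h0] at h1
      omega
    obtain ⟨k, hk⟩ := Nat.exists_eq_succ_of_ne_zero h2
    refine ⟨k, ?_, by rw [hk] at h1; exact h1⟩
    have h3 := Nat.find_min hfind (m := k) (by omega)
    exact not_lt.1 h3
  obtain ⟨k, hk1, hk2⟩ := hex
  have hmain := le_exLt_of_ex_le k n hk1
  have hmain' : (n : ℝ) * 2 ^ k ≤ 4 * exLt n P9 := by exact_mod_cast hmain
  -- estimate of k
  have hlog2 : Real.log 2 ≤ 0.7 := by
    have := Real.log_two_lt_d9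
    linarith
  have hlog2' : 0 < Real.log 2 := Real.log_pos (by norm_num)
  have hLk : L < 2 * ((k : ℝ) + 2) ^ 2 * 0.7 := by
    have h1 : (n : ℝ) < 2 ^ ex (k + 1) := by exact_mod_cast hk2
    have h2 : L < ex (k + 1) * Real.log 2 := by
      rw [hL, ← Real.log_pow]
      exact Real.log_lt_log hn0 h1
    have h3 : (ex (k + 1) : ℝ) ≤ 2 * ((k : ℝ) + 2) ^ 2 := by
      have := ex_le (k + 1)
      have h4 : (ex (k + 1) : ℝ) ≤ ((2 * (k + 1 + 1) ^ 2 : ℕ) : ℝ) := by exact_mod_cast this
      push_cast at h4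
      nlinarith
    have h5 : (0 : ℝ) ≤ ex (k + 1) := Nat.cast_nonneg _
    nlinarith [sq_nonneg ((k : ℝ) + 2)]
  have hk : s / 2 + 2 ≤ k := by
    by_contra hcon
    have h1 : (k : ℝ) + 2 < s / 2 + 4 := by linarith [not_le.1 hcon]
    have h2 : (k : ℝ) + 2 < 3 / 4 * s := by linarith
    have h3 : (0 : ℝ) ≤ (k : ℝ) + 2 := by positivity
    nlinarith
  have hpow : (4 : ℝ) * 2 ^ (s / 2) ≤ 2 ^ k := by
    have h1 : (2 : ℝ) ^ (s / 2 + 2) ≤ (2 : ℝ) ^ (k : ℝ) :=
      Real.rpow_le_rpow_of_exponent_le (by norm_num) hk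
    rw [Real.rpow_natCast, Real.rpow_add (by norm_num)] at h1
    have h2 : (2 : ℝ) ^ (2 : ℝ) = 4 := by
      rw [show (2 : ℝ) = ((2 : ℕ) : ℝ) by norm_num, Real.rpow_natCast]
      norm_num
    rw [h2] at h1
    linarith
  have h6 : (n : ℝ) * (4 * 2 ^ (s / 2)) ≤ n * 2 ^ k := mul_le_mul_of_nonneg_left hpow hn0.le
  nlinarith

/-- The extremal function beats every `C n (log n) ^ c`. -/
theorem beats_polylog (c C : ℝ) : ∃ N : ℕ, ∀ n : ℕ, N ≤ n →
    C * (n : ℝ) * Real.log n ^ c < exLt n P9 := by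
  obtain ⟨N, hN⟩ := lower_bound
  have hb : 0 < Real.log 2 / 2 := by
    have := Real.log_pos (show (1 : ℝ) < 2 by norm_num)
    linarith
  have h1 := isLittleO_rpow_exp_pos_mul_atTop (2 * c) hb
  have h2 : Filter.Tendsto (fun n : ℕ => Real.sqrt (Real.log n)) Filter.atTop Filter.atTop :=
    Real.tendsto_sqrt_atTop.comp (Real.tendsto_log_atTop.comp tendsto_natCast_atTop_atTop)
  have h3 := (h1.comp_tendsto h2).bound (show (0 : ℝ) < 1 / (2 * (|C| + 1)) by positivity)
  obtain ⟨N', hN'⟩ := Filter.eventually_atTop.1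
    (h3.and (Filter.eventually_ge_atTop 3))
  refine ⟨max N N', fun n hn => ?_⟩
  have hA := hN n (le_trans (le_max_left _ _) hn)
  obtain ⟨hB, h3n⟩ := hN' n (le_trans (le_max_right _ _) hn)
  have hn0 : (0 : ℝ) < n := by
    have : (3 : ℝ) ≤ n := by exact_mod_cast h3n
    linarith
  have hlog : 0 < Real.log n := Real.log_pos (by
    have : (3 : ℝ) ≤ n := by exact_mod_cast h3n
    linarith)
  refine lt_of_lt_of_le ?_ hA
  simp only [Function.comp_apply] at hB
  have hs : 0 < Real.sqrt (Real.log n) := Real.sqrt_pos.2 hlog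
  have hsq : Real.sqrt (Real.log n) ^ (2 * c) = Real.log n ^ c := by
    rw [Real.rpow_mul hs.le, show (2 : ℝ) = ((2 : ℕ) : ℝ) by norm_num, Real.rpow_natCast,
      Real.sq_sqrt hlog.le]
  have hexp : Real.exp (Real.log 2 / 2 * Real.sqrt (Real.log n)) =
      2 ^ (Real.sqrt (Real.log n) / 2) := by
    rw [Real.rpow_def_of_pos (by norm_num)]
    congr 1
    ring
  rw [hsq, hexp, Real.norm_of_nonneg (Real.rpow_nonneg hlog.le _),
    Real.norm_of_nonneg (Real.rpow_nonneg (by norm_num) _)] at hB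
  have hE : (0 : ℝ) < 2 ^ (Real.sqrt (Real.log n) / 2) := Real.rpow_pos_of_pos (by norm_num) _
  have h5 : C * Real.log n ^ c < 2 ^ (Real.sqrt (Real.log n) / 2) := by
    have hC : C ≤ |C| := le_abs_self C
    have hl : 0 ≤ Real.log n ^ c := Real.rpow_nonneg hlog.le _
    have hC0 : 0 ≤ |C| := abs_nonneg C
    have h6 : C * Real.log n ^ c ≤ (|C| + 1) * Real.log n ^ c := by nlinarith
    have h7 : (|C| + 1) * Real.log n ^ c ≤
        (|C| + 1) * (1 / (2 * (|C| + 1)) * 2 ^ (Real.sqrt (Real.log n) / 2)) :=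
      mul_le_mul_of_nonneg_left hB (by positivity)
    have h8 : (|C| + 1) * (1 / (2 * (|C| + 1)) * 2 ^ (Real.sqrt (Real.log n) / 2)) =
        2 ^ (Real.sqrt (Real.log n) / 2) / 2 := by
      field_simp
    linarith
  calc C * (n : ℝ) * Real.log n ^ c = n * (C * Real.log n ^ c) := by ring
    _ < n * 2 ^ (Real.sqrt (Real.log n) / 2) := mul_lt_mul_of_pos_left h5 hn0

end Pool.Agent.Lib.MP_79efce_co
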