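import Pool.Agent.Lib.MP_79efce_co.Final

set_option autoImplicit false

/-!
# Edge-ordered graphs, their containment, extremal function and order chromatic number
-/

namespace Pool.Agent.Lib.MP_79efce_co

/-- An edge-ordered graph on the vertex set `V`: a simple graph together with a linear order on
its edge set. -/
structure EOGraph (V : Type) where
  graph : SimpleGraph V
  ord : LinearOrder graph.edgeSet

/-- `G` contains `H`: some injective homomorphism of graphs from `H` to `G` preserves the strict
order of the edges (so it is an isomorphism of edge-ordered graphs from `H` onto a subgraph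
of `G`). -/
def EOGraph.Contains {V W : Type} (G : EOGraph V) (H : EOGraph W) : Prop :=
  ∃ φ : H.graph →g G.graph, Function.Injective φ ∧
    ∀ e f : H.graph.edgeSet, H.ord.lt e f → G.ord.lt (φ.mapEdgeSet e) (φ.mapEdgeSet f)

/-- The largest number of edges of an edge-ordered graph on `n` vertices that avoids `H`. -/
noncomputable def exLt {W : Type} (n : ℕ) (H : EOGraph W) : ℕ :=
  sSup {m | ∃ G : EOGraph (Fin n), ¬ G.Contains H ∧ G.graph.edgeSet.ncard = m}

/-- The order chromatic number: the least chromatic number of a finite simple graph `K` such that
every edge-ordering of `K` contains `H` (infinite if there is no such `K`). -/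
noncomputable def orderChromaticNumber {W : Type} (H : EOGraph W) : ℕ∞ :=
  ⨅ (k : ℕ) (K : SimpleGraph (Fin k))
    (_ : ∀ o : LinearOrder K.edgeSet, (EOGraph.mk K o).Contains H), K.chromaticNumber

/-- The edge-ordered path `P_9` with 8 edges, whose edges have along the path the ranks
`6, 1, 2, 4, 5, 7, 8, 3` (`L9 s(i, i+1)` is the `i`-th of these numbers). -/
def P9 : EOGraph (Fin 9) where
  graph := SimpleGraph.pathGraph 9
  ord := LinearOrder.lift' (fun e : (SimpleGraph.pathGraph 9).edgeSet => L9 e)
    (fun e f h => Subtype.ext (L9_injOn e.2 f.2 h))

end Pool.Agent.Lib.MP_79efce_co
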